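import Pool.Agent.Run7.h88.LQ.ExpSum
import Mathlib.NumberTheory.Pell

/-! # Quadratic irrationals and dense orbits of the Lucas sequences -/

set_option autoImplicit false

open Finset MeasureTheory ProbabilityTheory Filter Topology
open Pool.Agent.H1R3.Det (Circ)
open Pool.Agent.N440.FO

namespace Run7.h88.LQ

variable {Ω : Type*} [MeasurableSpace Ω] {μ : Measure Ω} [IsProbabilityMeasure μ]

/-- The multiples `m U_k(t) β` are dense modulo one, for all `t ≥ 3` and `m ≠ 0`. -/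
def DenseLucas (β : ℝ) : Prop :=
  ∀ t : ℤ, 3 ≤ t → ∀ m : ℤ, m ≠ 0 →
    Dense (Set.range fun k : ℕ => ((((m * U t k : ℤ) : ℝ) * β : ℝ) : Circ))

theorem dense_rec {a : ℕ} (ha : 2 ≤ a) {ε : ℕ → Ω → ℤ} (hε : ∀ n, Measurable (ε n))
    {M : ℤ} (hM : ∀ n ω, |ε n ω| ≤ M) {y : ℝ}
    {δ : ℕ → ℝ} (hc : Cond μ ε δ) (hδ0 : ∀ n, 0 ≤ δ n) (hns : ¬ Summable δ) :
    ∀ᵐ ω ∂μ, DenseLucas (X a ε y ω) := by
  obtain ⟨p, hp, hpa⟩ := Nat.exists_prime_and_dvd (n := a) (by omega)
  unfold DenseLucas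
  rw [ae_all_iff]
  intro t
  by_cases ht : 3 ≤ t
  · have h1 : ∀ᵐ ω ∂μ, ∀ m : ℤ, m ≠ 0 →
        Dense (Set.range fun k : ℕ => ((((m * U t k : ℤ) : ℝ) * X a ε y ω : ℝ) : Circ)) := by
      rw [ae_all_iff]
      intro m
      by_cases hm : m = 0
      · exact Filter.Eventually.of_forall fun ω h => absurd hm h
      · have hrec : IsRec t (fun k => m * U t k) := by
          intro k
          show m * U t (k + 2) = t * (m * U t (k + 1)) - m * U t k
          have h2 : U t (k + 2) = t * U t (k + 1) - U t k := rfl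
          rw [h2]
          ring
        have hn : nrm t (fun k => m * U t k) 0 ≠ 0 := by
          unfold nrm
          simp [U, hm]
        filter_upwards [dense_seq ha hε hM hc hδ0 hns hp hpa
          (psum_of_rec ht hrec hn hp hpa (by omega)) (y := y)] with ω hω _
        exact hω
    filter_upwards [h1] with ω hω _
    exact hω
  · exact Filter.Eventually.of_forall fun ω h => absurd h ht

theorem dist_int (P : ℤ) {ρ : ℝ} (h : |ρ| < 1 / 2) :
    |((P : ℝ) - ρ) - round ((P : ℝ) - ρ)| = |ρ| := by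
  have h1 : round ((P : ℝ) - ρ) = P := by
    rw [sub_eq_add_neg, round_intCast_add, round_eq_zero_iff.2, add_zero]
    rw [abs_lt] at h
    constructor <;> linarith [h.1, h.2]
  rw [h1, show (P : ℝ) - ρ - P = -ρ by ring, abs_neg]

theorem U_conj {t : ℤ} {η ηi : ℝ} (h1 : η * ηi = 1) (h2 : η + ηi = t) (k : ℕ) :
    (U t (k + 1) : ℝ) - ηi * U t k = η ^ k := by
  induction k with
  | zero => simp [U]
  | succ k ih =>
    have h3 : (U t (k + 1 + 1) : ℝ) = t * U t (k + 1) - U t k := by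
      have : U t (k + 1 + 1) = t * U t (k + 1) - U t k := rfl
      rw [this]
      push_cast
      ring
    rw [h3, pow_succ, ← ih, ← h2]
    linear_combination (U t k : ℝ) * (h1)

theorem le_U {t : ℤ} (ht : 3 ≤ t) (k : ℕ) : (k : ℤ) ≤ U t k := by
  induction k with
  | zero => simp [U]
  | succ k ih =>
    have := (U_pos ht k).2
    push_cast
    linarith

theorem quad_pos {α β : ℝ} (hirr : Irrational α) {A B C : ℤ} (hA : A ≠ 0)
    (hq : (A : ℝ) * α ^ 2 + B * α + C = 0) (hδ : 0 < 2 * A * α + B) (hd : DenseLucas β)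
    (γ : ℝ) {τ : ℝ} (hτ : 0 ≤ τ) {ε : ℝ} (hε : 0 < ε) :
    ∃ᶠ q : ℕ in atTop, |(q : ℝ) * |q * α - round (q * α)| *
      |(q * β - γ) - round (q * β - γ)| - τ| < ε := by
  set δ : ℝ := 2 * A * α + B with hδdef
  have hAr : (A : ℝ) ≠ 0 := by exact_mod_cast hA
  have hD : δ ^ 2 = ((B ^ 2 - 4 * A * C : ℤ) : ℝ) := by
    rw [hδdef]
    push_cast
    linear_combination (4 * A : ℝ) * hq
  set D : ℤ := B ^ 2 - 4 * A * C with hDdef
  have hD0 : 0 < D := by
    have : (0 : ℝ) < D := by rw [← hD]; positivity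
    exact_mod_cast this
  have hDs : ¬ IsSquare D := by
    rintro ⟨r, hr⟩
    have h1 : δ ^ 2 = (r : ℝ) ^ 2 := by rw [hD, hr]; push_cast; ring
    have h2 : δ = |(r : ℝ)| := by
      rw [← abs_of_pos hδ]
      exact (sq_eq_sq_iff_abs_eq_abs _ _).1 h1
    apply hirr
    refine ⟨((|r| - B : ℤ) : ℚ) / ((2 * A : ℤ) : ℚ), ?_⟩
    push_cast
    rw [div_eq_iff (by simpa using hAr)]
    have h3 : (2 * A * α + B : ℝ) = |(r : ℝ)| := h2
    linarith
  obtain ⟨s, hX, hY⟩ := Pell.Solution₁.exists_pos_of_not_isSquare hD0 hDs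
  set Xs : ℤ := s.x with hXs
  set Y : ℤ := s.y with hYs
  have hpell : Xs ^ 2 - D * Y ^ 2 = 1 := s.prop
  have hpellr : (Xs : ℝ) ^ 2 - δ ^ 2 * (Y : ℝ) ^ 2 = 1 := by
    rw [hD]
    exact_mod_cast hpell
  have hYr : (0 : ℝ) < Y := by exact_mod_cast hY
  have hXr : (1 : ℝ) < Xs := by exact_mod_cast hX
  set t : ℤ := 2 * Xs with ht
  have ht3 : 3 ≤ t := by omega
  set η : ℝ := Xs - Y * δ with hη
  set ηi : ℝ := Xs + Y * δ with hηi
  have hmul : η * ηi = 1 := by rw [hη, hηi]; linear_combination hpellr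
  have hηi1 : 1 < ηi := by
    rw [hηi]
    have : 0 < (Y : ℝ) * δ := mul_pos hYr hδ
    linarith
  have hη0 : 0 < η := by
    by_contra h
    rw [not_lt] at h
    nlinarith
  have hη1 : η < 1 := by nlinarith
  have hsum : η + ηi = t := by rw [hη, hηi, ht]; push_cast; ring
  have hU1 := U_conj hmul hsum
  have hU2 := U_conj (η := ηi) (ηi := η) (by rw [mul_comm]; exact hmul) (by rw [add_comm]; exact hsum)
  have hUU : ∀ k, (U t k : ℝ) * (2 * Y * δ) = ηi ^ k - η ^ k := by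
    intro k
    have h1 := hU1 k
    have h2 := hU2 k
    have h3 : ηi - η = 2 * Y * δ := by rw [hη, hηi]; ring
    rw [← h3]
    linear_combination h2 - h1
  -- the multiplier
  obtain ⟨M, hM⟩ := exists_nat_gt (2 * τ * δ / |(A : ℝ)|)
  have hA0 : 0 < |(A : ℝ)| := abs_pos.2 hAr
  have hM0 : 0 < M := by
    have : (0 : ℝ) < M := lt_of_le_of_lt (by positivity) hM
    exact_mod_cast this
  have hM1 : (1 : ℝ) ≤ M := by exact_mod_cast hM0
  set lam : ℝ := M ^ 2 * |(A : ℝ)| / δ with hlam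
  have hlam0 : 0 < lam := by positivity
  have hlamτ : 2 * τ ≤ lam := by
    rw [hlam, le_div_iff₀ hδ]
    rw [div_lt_iff₀ hA0] at hM
    have h1 : (M : ℝ) * |(A : ℝ)| ≤ M ^ 2 * |(A : ℝ)| := by
      have h2 : (M : ℝ) ≤ M ^ 2 := by nlinarith
      exact mul_le_mul_of_nonneg_right h2 hA0.le
    linarith
  set σ : ℝ := τ / lam with hσ
  have hσ0 : 0 ≤ σ := by positivity
  have hσ1 : σ ≤ 1 / 2 := by
    rw [hσ, div_le_iff₀ hlam0]
    linarith
  set m : ℤ := M * |2 * A| * Y with hm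
  have hm0 : 0 < m := by
    have : 0 < |2 * A| := abs_pos.2 (by omega)
    positivity
  have hdm := hd t ht3 m hm0.ne'
  rw [Filter.frequently_atTop]
  intro N
  haveI : Fact ((0 : ℝ) < 1) := ⟨one_pos⟩
  haveI : Nontrivial Circ := by
    refine ⟨⟨((1 / 2 : ℝ) : Circ), 0, fun h => ?_⟩⟩
    have h1 : ‖((1 / 2 : ℝ) : UnitAddCircle)‖ = 0 := by
      have h2 : ((1 / 2 : ℝ) : UnitAddCircle) = 0 := h
      rw [h2, norm_zero]
    rw [UnitAddCircle.norm_eq, round_eq] at h1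
    norm_num at h1
  haveI : ConnectedSpace Circ := inferInstanceAs (ConnectedSpace (ℝ ⧸ AddSubgroup.zmultiples (1 : ℝ)))
  have hlim : Tendsto (fun k : ℕ => η ^ k) atTop (𝓝 0) :=
    tendsto_pow_atTop_nhds_zero_of_lt_one hη0.le hη1
  obtain ⟨K, hK⟩ := Filter.eventually_atTop.1
    ((hlim.eventually_lt_const (show (0 : ℝ) < 1 / (2 * M) by positivity)).and
      (hlim.eventually_lt_const (show (0 : ℝ) < ε / (2 * lam) by positivity)))
  -- a visit
  have hdense := Dense.sdiff_finite hdm (t := (fun k : ℕ => ((((m * U t k : ℤ) : ℝ) * β : ℝ) : Circ)) ''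
    (Set.Iio (max K N))) ((Set.finite_Iio _).image _)
  obtain ⟨z, ⟨⟨k, hk⟩, hz2⟩, hzV⟩ := hdense.exists_mem_open
    (Metric.isOpen_ball (x := ((γ + σ : ℝ) : Circ)) (ε := ε / (2 * lam)))
    ⟨_, Metric.mem_ball_self (by positivity)⟩
  have hkK : max K N ≤ k := by
    by_contra h
    rw [not_le] at h
    exact hz2 ⟨k, h, hk⟩
  have hUnn : 0 ≤ U t k := (Int.natCast_nonneg k).trans (le_U ht3 k)
  have hqz : (0 : ℤ) ≤ m * U t k := mul_nonneg hm0.le hUnn
  set q : ℕ := (m * U t k).toNat with hqdef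
  have hqi : (q : ℤ) = m * U t k := Int.toNat_of_nonneg hqz
  have hqr : (q : ℝ) = m * U t k := by exact_mod_cast hqi
  have hqN : N ≤ q := by
    have h1 : (k : ℤ) ≤ q := by
      rw [hqi]
      have := le_U ht3 k
      nlinarith
    have h2 := le_max_right K N
    omega
  refine ⟨q, hqN, ?_⟩
  obtain ⟨hK1, hK2⟩ := hK k ((le_max_left _ _).trans hkK)
  -- the distance of `q α`
  obtain ⟨sg, hsg, hsg1⟩ : ∃ sg : ℤ, |2 * A| = sg * (2 * A) ∧ |(sg : ℝ)| = 1 := by
    rcases abs_choice (2 * A) with h | h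
    · exact ⟨1, by rw [h]; ring, by simp⟩
    · exact ⟨-1, by rw [h]; ring, by simp⟩
  have hqα : (q : ℝ) * α = ((M * sg * (U t (k + 1) - Xs * U t k - B * Y * U t k) : ℤ) : ℝ) -
      M * sg * η ^ k := by
    have h1 := hU1 k
    have h2 : ((|2 * A| : ℤ) : ℝ) = sg * (2 * A) := by rw [hsg]; push_cast; ring
    rw [hqr, hm]
    push_cast at h2 ⊢
    rw [h2, ← h1, hηi]
    have h3 : 2 * (A : ℝ) * α = δ - B := by rw [hδdef]; ring
    linear_combination (M * sg * Y * U t k : ℝ) * h3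
  have hρ : |(M : ℝ) * sg * η ^ k| = M * η ^ k := by
    rw [abs_mul, abs_mul, hsg1, mul_one, abs_of_nonneg (show (0 : ℝ) ≤ M by positivity),
      abs_of_pos (pow_pos hη0 k)]
  have hdα : |(q : ℝ) * α - round ((q : ℝ) * α)| = M * η ^ k := by
    rw [hqα, dist_int _ (by
      rw [hρ]
      rw [lt_div_iff₀ (by positivity)] at hK1
      linarith), hρ]
  have hprod : (q : ℝ) * |(q : ℝ) * α - round ((q : ℝ) * α)| = lam * (1 - η ^ k * η ^ k) := by
    rw [hdα, hqr, hm, hlam]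
    have h2 : ((|2 * A| : ℤ) : ℝ) = 2 * |(A : ℝ)| := by
      push_cast
      rw [abs_mul, abs_of_pos (by norm_num : (0 : ℝ) < 2)]
    have h3 := hUU k
    have h4 : η ^ k * ηi ^ k = 1 := by rw [← mul_pow, hmul, one_pow]
    push_cast at h2 ⊢
    rw [h2, div_mul_eq_mul_div, eq_div_iff hδ.ne']
    linear_combination (M ^ 2 * |(A : ℝ)| * η ^ k : ℝ) * h3 + (M ^ 2 * |(A : ℝ)|) * h4
  -- the distance of `q β - γ`
  set w : ℝ := |((q : ℝ) * β - γ) - round ((q : ℝ) * β - γ)| with hw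
  have hw1 : w = ‖(((q : ℝ) * β - γ : ℝ) : UnitAddCircle)‖ := UnitAddCircle.norm_eq.symm
  have hw0 : 0 ≤ w := abs_nonneg _
  have hwle : w ≤ 1 / 2 := abs_sub_round _
  have hwσ : |w - σ| < ε / (2 * lam) := by
    have h1 : ‖((σ : ℝ) : UnitAddCircle)‖ = σ := by
      rw [UnitAddCircle.norm_eq]
      have h5 := dist_int 0 (ρ := -σ)
      rcases lt_or_eq_of_le hσ1 with h6 | h6
      · have h7 := h5 (by rw [abs_neg, abs_of_nonneg hσ0]; exact h6)
        simp only [Int.cast_zero, zero_sub, neg_neg] at h7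
        rw [h7, abs_neg, abs_of_nonneg hσ0]
      · rw [h6]
        have h8 : round (1 / 2 : ℝ) = 1 := by
          rw [round_eq]
          norm_num
        rw [h8]
        norm_num
    have h2 : ‖((((q : ℝ) * β - γ : ℝ) : UnitAddCircle)) - ((σ : ℝ) : UnitAddCircle)‖ <
        ε / (2 * lam) := by
      have h3 : dist z ((γ + σ : ℝ) : Circ) < ε / (2 * lam) := hzV
      rw [← hk, dist_eq_norm] at h3
      have h4 : ((((m * U t k : ℤ) : ℝ) * β : ℝ) : Circ) - ((γ + σ : ℝ) : Circ) =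
          (((q : ℝ) * β - γ : ℝ) : Circ) - ((σ : ℝ) : Circ) := by
        rw [hqr, ← AddCircle.coe_sub, ← AddCircle.coe_sub]
        congr 1
        push_cast
        ring
      simp only at h3
      rw [h4] at h3
      exact h3
    rw [hw1]
    calc |‖(((q : ℝ) * β - γ : ℝ) : UnitAddCircle)‖ - σ|
        = |‖(((q : ℝ) * β - γ : ℝ) : UnitAddCircle)‖ - ‖((σ : ℝ) : UnitAddCircle)‖| := by rw [h1]
      _ ≤ _ := abs_norm_sub_norm_le _ _
      _ < _ := h2
  rw [hprod]
  have h1 : lam * (1 - η ^ k * η ^ k) * w - τ = lam * (w - σ) - lam * (η ^ k * η ^ k) * w := by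
    have : lam * σ = τ := by rw [hσ]; field_simp
    linear_combination this
  rw [h1]
  have hηk0 : 0 < η ^ k := pow_pos hη0 k
  have hηk1 : η ^ k ≤ 1 := pow_le_one₀ hη0.le hη1.le
  have h2 : |lam * (w - σ)| < ε / 2 := by
    rw [abs_mul, abs_of_pos hlam0]
    calc lam * |w - σ| < lam * (ε / (2 * lam)) := by gcongr
      _ = ε / 2 := by field_simp
  have h3 : |lam * (η ^ k * η ^ k) * w| < ε / 2 := by
    rw [abs_of_nonneg (by positivity)]
    calc lam * (η ^ k * η ^ k) * w ≤ lam * (η ^ k * 1) * 1 := by gcongr; linarith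
      _ = lam * η ^ k := by ring
      _ < lam * (ε / (2 * lam)) := by gcongr
      _ = ε / 2 := by field_simp
  calc _ ≤ |lam * (w - σ)| + |lam * (η ^ k * η ^ k) * w| := abs_sub _ _
    _ < ε / 2 + ε / 2 := add_lt_add h2 h3
    _ = ε := by ring

theorem quad_values {α β : ℝ} (hirr : Irrational α)
    (hq : ∃ A B C : ℤ, A ≠ 0 ∧ (A : ℝ) * α ^ 2 + B * α + C = 0) (hd : DenseLucas β)
    (γ : ℝ) {τ : ℝ} (hτ : 0 ≤ τ) {ε : ℝ} (hε : 0 < ε) :
    ∃ᶠ q : ℕ in atTop, |(q : ℝ) * |q * α - round (q * α)| *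
      |(q * β - γ) - round (q * β - γ)| - τ| < ε := by
  obtain ⟨A, B, C, hA, hq⟩ := hq
  have hAr : (A : ℝ) ≠ 0 := by exact_mod_cast hA
  rcases lt_trichotomy (2 * A * α + B) 0 with h | h | h
  · refine quad_pos hirr (A := -A) (B := -B) (C := -C) (by omega) ?_ ?_ hd γ hτ hε
    · push_cast
      linarith
    · push_cast
      linarith
  · exfalso
    apply hirr
    refine ⟨((-B : ℤ) : ℚ) / ((2 * A : ℤ) : ℚ), ?_⟩
    push_cast
    rw [div_eq_iff (by simpa using hAr)]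
    linarith
  · exact quad_pos hirr hA hq h hd γ hτ hε

end Run7.h88.LQ
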