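import Pool.Agent.Run7.h88.LQ.Every
import Pool.Agent.Run7.h88.LQ.Final

/-! # Every nonnegative number is a limit value -/

set_option autoImplicit false

open Finset MeasureTheory ProbabilityTheory Filter Topology
open Pool.Agent.H1R3.Det (Circ)
open Pool.Agent.N440.FO
open Pool.Agent.H380R2.LC

namespace Run7.h88.LQ

/-- distance to the nearest integer -/
theorem dist_le_int (x : ℝ) (P : ℤ) : |x - round x| ≤ |x - P| := round_le x P

/-- limit values from a dense sequence of multiples -/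
theorem values_of_dense {α β : ℝ} {Q : ℕ → ℤ} (hQ0 : ∀ k, 0 < Q k)
    (hQ : Tendsto (fun k => (Q k : ℝ)) atTop atTop)
    (hd : Dense (Set.range fun k : ℕ => (((Q k : ℝ) * β : ℝ) : Circ))) {P : ℕ → ℤ} {ξ : ℝ}
    (hξ : 0 < ξ) (hx : Tendsto (fun k => (Q k : ℝ) * |(Q k : ℝ) * α - P k|) atTop (𝓝 ξ))
    (γ : ℝ) {τ : ℝ} (hτ : 0 ≤ τ) {ε : ℝ} (hε : 0 < ε) :
    ∃ᶠ q : ℕ in atTop, |(q : ℝ) * |q * α - round (q * α)| *
      |(q * β - γ) - round (q * β - γ)| - τ| < ε := by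
  obtain ⟨M, hM⟩ := exists_nat_gt (2 * τ / ξ)
  have hM0 : 0 < M := by
    have : (0 : ℝ) < M := lt_of_le_of_lt (by positivity) hM
    exact_mod_cast this
  have hMr : (0 : ℝ) < M := by exact_mod_cast hM0
  have hM1 : (1 : ℝ) ≤ M := by exact_mod_cast hM0
  set lam : ℝ := M ^ 2 * ξ with hlam
  have hlam0 : 0 < lam := by positivity
  have hlamτ : 2 * τ ≤ lam := by
    rw [div_lt_iff₀ hξ] at hM
    have h1 : (M : ℝ) * ξ ≤ M ^ 2 * ξ := by
      have h2 : (M : ℝ) ≤ M ^ 2 := by nlinarith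
      exact mul_le_mul_of_nonneg_right h2 hξ.le
    linarith
  set σ : ℝ := τ / lam with hσ
  have hσ0 : 0 ≤ σ := by positivity
  have hσ1 : σ ≤ 1 / 2 := by
    rw [hσ, div_le_iff₀ hlam0]
    linarith
  -- the distance of `Q k α`
  have hdist : Tendsto (fun k => |(Q k : ℝ) * α - P k|) atTop (𝓝 0) := by
    have h1 : Tendsto (fun k => ((Q k : ℝ) * |(Q k : ℝ) * α - P k|) * (Q k : ℝ)⁻¹) atTop (𝓝 (ξ * 0)) :=
      hx.mul (tendsto_inv_atTop_zero.comp hQ)
    rw [mul_zero] at h1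
    refine h1.congr fun k => ?_
    have : (Q k : ℝ) ≠ 0 := by exact_mod_cast (hQ0 k).ne'
    field_simp
  rw [Filter.frequently_atTop]
  intro N
  have : Fact ((0 : ℝ) < 1) := ⟨one_pos⟩
  have : Nontrivial Circ := by
    refine ⟨⟨((1 / 2 : ℝ) : Circ), 0, fun h => ?_⟩⟩
    have h1 : ‖((1 / 2 : ℝ) : UnitAddCircle)‖ = 0 := by
      have h2 : ((1 / 2 : ℝ) : UnitAddCircle) = 0 := h
      rw [h2, norm_zero]
    rw [UnitAddCircle.norm_eq, round_eq] at h1
    norm_num at h1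
  have : ConnectedSpace Circ := inferInstanceAs (ConnectedSpace (ℝ ⧸ AddSubgroup.zmultiples (1 : ℝ)))
  -- the multiples are dense
  have hdM : Dense (Set.range fun k : ℕ => ((((M : ℝ) * Q k) * β : ℝ) : Circ)) := by
    have hcont : Continuous fun x : Circ => M • x := continuous_nsmul M
    have hsurj : Function.Surjective fun x : Circ => M • x := by
      intro x
      obtain ⟨t, rfl⟩ := QuotientAddGroup.mk_surjective x
      refine ⟨((t / M : ℝ) : Circ), ?_⟩
      show M • ((t / M : ℝ) : Circ) = (t : Circ)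
      rw [← AddCircle.coe_nsmul, nsmul_eq_mul]
      congr 1
      field_simp
    have h1 : DenseRange ((fun x : Circ => M • x) ∘ fun k : ℕ => (((Q k : ℝ) * β : ℝ) : Circ)) :=
      hsurj.denseRange.comp hd hcont
    have h2 : ((fun x : Circ => M • x) ∘ fun k : ℕ => (((Q k : ℝ) * β : ℝ) : Circ)) =
        fun k : ℕ => ((((M : ℝ) * Q k) * β : ℝ) : Circ) := by
      funext k
      show M • (((Q k : ℝ) * β : ℝ) : Circ) = _
      rw [← AddCircle.coe_nsmul, nsmul_eq_mul]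
      congr 1
      ring
    rw [h2] at h1
    exact h1
  have hlim : Tendsto (fun k => |(Q k : ℝ) * |(Q k : ℝ) * α - P k| - ξ|) atTop (𝓝 0) := by
    have h1 := (hx.sub_const ξ).abs
    rwa [sub_self, abs_zero] at h1
  obtain ⟨K, hK⟩ := Filter.eventually_atTop.1
    (((hdist.eventually_lt_const (show (0 : ℝ) < 1 / (2 * M) by positivity)).and
      (hlim.eventually_lt_const (show (0 : ℝ) < ε / (2 * M ^ 2) by positivity))).and
        (hQ.eventually_ge_atTop (N : ℝ)))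
  have hdense := Dense.sdiff_finite hdM (t := (fun k : ℕ => ((((M : ℝ) * Q k) * β : ℝ) : Circ)) ''
    (Set.Iio K)) ((Set.finite_Iio _).image _)
  obtain ⟨z, ⟨⟨k, hk⟩, hz2⟩, hzV⟩ := hdense.exists_mem_open
    (Metric.isOpen_ball (x := ((γ + σ : ℝ) : Circ)) (ε := ε / (2 * lam)))
    ⟨_, Metric.mem_ball_self (by positivity)⟩
  have hkK : K ≤ k := by
    by_contra h
    rw [not_le] at h
    exact hz2 ⟨k, h, hk⟩
  obtain ⟨⟨hK1, hK2⟩, hK3⟩ := hK k hkK
  set q : ℕ := (M * Q k).toNat with hqdef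
  have hqi : (q : ℤ) = M * Q k := Int.toNat_of_nonneg (by
    have := hQ0 k
    positivity)
  have hqr : (q : ℝ) = M * Q k := by exact_mod_cast hqi
  have hqN : N ≤ q := by
    have h1 : (N : ℝ) ≤ q := by
      rw [hqr]
      have : (0 : ℝ) < Q k := by exact_mod_cast hQ0 k
      nlinarith
    exact_mod_cast h1
  refine ⟨q, hqN, ?_⟩
  have hqα : (q : ℝ) * α = ((M * P k : ℤ) : ℝ) - (-(M * ((Q k : ℝ) * α - P k))) := by
    rw [hqr]
    push_cast
    ring
  have hρ : |(-((M : ℝ) * ((Q k : ℝ) * α - P k)))| = M * |(Q k : ℝ) * α - P k| := by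
    rw [abs_neg, abs_mul, abs_of_pos hMr]
  have hdα : |(q : ℝ) * α - round ((q : ℝ) * α)| = M * |(Q k : ℝ) * α - P k| := by
    rw [hqα, dist_int _ (by
      rw [hρ]
      rw [lt_div_iff₀ (by positivity)] at hK1
      linarith), hρ]
  set x : ℝ := (Q k : ℝ) * |(Q k : ℝ) * α - P k| with hxdef
  have hprod : (q : ℝ) * |(q : ℝ) * α - round ((q : ℝ) * α)| = M ^ 2 * x := by
    rw [hdα, hqr, hxdef]
    ring
  set w : ℝ := |((q : ℝ) * β - γ) - round ((q : ℝ) * β - γ)| with hw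
  have hw1 : w = ‖(((q : ℝ) * β - γ : ℝ) : UnitAddCircle)‖ := UnitAddCircle.norm_eq.symm
  have hw0 : 0 ≤ w := abs_nonneg _
  have hwle : w ≤ 1 / 2 := abs_sub_round _
  have hwσ : |w - σ| < ε / (2 * lam) := by
    have h1 : ‖((σ : ℝ) : UnitAddCircle)‖ = σ := by
      rw [UnitAddCircle.norm_eq]
      have h5 := dist_int 0 (ρ := -σ)
      rcases lt_or_eq_of_le hσ1 with h6 | h6
      · have h7 := h5 (by rw [abs_neg, abs_of_nonneg hσ0]; exact h6)
        simp only [Int.cast_zero, zero_sub, neg_neg] at h7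
        rw [h7, abs_neg, abs_of_nonneg hσ0]
      · rw [h6]
        have h8 : round (1 / 2 : ℝ) = 1 := by
          rw [round_eq]
          norm_num
        rw [h8]
        norm_num
    have h2 : ‖((((q : ℝ) * β - γ : ℝ) : UnitAddCircle)) - ((σ : ℝ) : UnitAddCircle)‖ <
        ε / (2 * lam) := by
      have h3 : dist z ((γ + σ : ℝ) : Circ) < ε / (2 * lam) := hzV
      rw [← hk, dist_eq_norm] at h3
      have h4 : ((((M : ℝ) * Q k) * β : ℝ) : Circ) - ((γ + σ : ℝ) : Circ) =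
          (((q : ℝ) * β - γ : ℝ) : Circ) - ((σ : ℝ) : Circ) := by
        rw [hqr, ← AddCircle.coe_sub, ← AddCircle.coe_sub]
        congr 1
        ring
      simp only at h3
      rw [h4] at h3
      exact h3
    rw [hw1]
    calc |‖(((q : ℝ) * β - γ : ℝ) : UnitAddCircle)‖ - σ|
        = |‖(((q : ℝ) * β - γ : ℝ) : UnitAddCircle)‖ - ‖((σ : ℝ) : UnitAddCircle)‖| := by rw [h1]
      _ ≤ _ := abs_norm_sub_norm_le _ _
      _ < _ := h2
  rw [hprod]
  have h1 : (M : ℝ) ^ 2 * x * w - τ = lam * (w - σ) + M ^ 2 * (x - ξ) * w := by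
    have : lam * σ = τ := by rw [hσ]; field_simp
    rw [hlam] at this ⊢
    linear_combination this
  rw [h1]
  have h2 : |lam * (w - σ)| < ε / 2 := by
    rw [abs_mul, abs_of_pos hlam0]
    calc lam * |w - σ| < lam * (ε / (2 * lam)) := by gcongr
      _ = ε / 2 := by field_simp
  have h3 : |(M : ℝ) ^ 2 * (x - ξ) * w| < ε / 2 := by
    rw [abs_mul, abs_mul, abs_of_nonneg hw0, abs_of_pos (by positivity : (0 : ℝ) < M ^ 2)]
    calc (M : ℝ) ^ 2 * |x - ξ| * w ≤ M ^ 2 * |x - ξ| * 1 := by gcongr; linarith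
      _ = M ^ 2 * |x - ξ| := mul_one _
      _ < M ^ 2 * (ε / (2 * M ^ 2)) := by gcongr
      _ = ε / 2 := by field_simp
  calc _ ≤ |lam * (w - σ)| + |(M : ℝ) ^ 2 * (x - ξ) * w| := abs_add_le _ _
    _ < ε / 2 + ε / 2 := add_lt_add h2 h3
    _ = ε := by ring

/-- `α` is badly approximable -/
def Bad (α : ℝ) : Prop := ∃ c : ℝ, 0 < c ∧ ∀ q : ℕ, 1 ≤ q → c ≤ (q : ℝ) * |q * α - round (q * α)|

theorem Bad.irrational {α : ℝ} (h : Bad α) : Irrational α := by
  obtain ⟨c, hc, h⟩ := h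
  rintro ⟨x, rfl⟩
  have h1 := h x.den x.den_pos
  have h2 : ((x.den : ℕ) : ℝ) * ((x : ℚ) : ℝ) = ((x.num : ℤ) : ℝ) := by
    rw [Rat.cast_def]
    have : (x.den : ℝ) ≠ 0 := by exact_mod_cast x.den_ne_zero
    field_simp
  rw [h2, round_intCast, sub_self, abs_zero, mul_zero] at h1
  linarith

theorem den_pos' {α : ℝ} (hα : Irrational α) (k : ℕ) : 1 ≤ den α (k + 1) := by
  have h := Q_le (A := fun k => pq α (k + 1)) (Q := den α) (fun k => pq_pos hα k) rfl rfl
    (fun _ => rfl) (show 1 ≤ k + 1 by omega)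
  exact h

theorem den_ge {α : ℝ} (hα : Irrational α) (k : ℕ) : (k : ℤ) ≤ den α (k + 2) := by
  induction k with
  | zero =>
    have h : 1 ≤ den α (0 + 2) := den_pos' hα 1
    exact le_trans (by norm_num) h
  | succ k ih =>
    have h1 : den α (k + 1 + 2) = pq α (k + 2) * den α (k + 2) + den α (k + 1) := rfl
    have h2 := pq_pos hα (k + 1)
    have h3 := den_pos' hα k
    have h4 := den_pos' hα (k + 1)
    rw [show k + 1 + 1 = k + 2 from rfl] at h2 h4
    rw [h1]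
    push_cast
    nlinarith

theorem den_bad {α : ℝ} {c : ℝ}
    (h : ∀ q : ℕ, 1 ≤ q → c ≤ (q : ℝ) * |q * α - round (q * α)|) (hα : Irrational α) (k : ℕ) :
    c ≤ (den α (k + 1) : ℝ) * |th α (k + 1)| := by
  have h1 := den_pos' hα k
  obtain ⟨q, hq⟩ := Int.eq_ofNat_of_zero_le (show 0 ≤ den α (k + 1) by omega)
  have h2 := h q (by omega)
  have h3 : (den α (k + 1) : ℝ) = q := by rw [hq]; simp
  rw [h3]
  refine h2.trans (mul_le_mul_of_nonneg_left ?_ (by positivity))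
  refine (round_le ((q : ℝ) * α) (num α (k + 1))).trans (le_of_eq ?_)
  rw [th, h3]

theorem pq_bound {α : ℝ} (h : Bad α) : ∃ B : ℤ, ∀ k, pq α (k + 1) ≤ B := by
  have hα := h.irrational
  obtain ⟨c, hc, h⟩ := h
  refine ⟨⌈1 / c⌉, fun k => ?_⟩
  have h1 := den_bad h hα k
  have h2 := den_mul_th hα k
  have h3 := fract_pos hα k
  have hd : (0 : ℝ) < den α (k + 1) := by exact_mod_cast (den_pos' hα k)
  have h4 : |th α (k + 1)| = |th α k| * Int.fract (cq α k) := by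
    rw [th_succ hα k, abs_neg, abs_mul, abs_of_pos h3]
  have h5 : c ≤ Int.fract (cq α k) := by
    rw [h4, ← mul_assoc] at h1
    calc c ≤ _ := h1
      _ ≤ 1 * Int.fract (cq α k) := by gcongr
      _ = _ := one_mul _
  have h6 : (pq α (k + 1) : ℝ) ≤ 1 / c := by
    calc (pq α (k + 1) : ℝ) ≤ cq α (k + 1) := Int.floor_le _
      _ = (Int.fract (cq α k))⁻¹ := rfl
      _ ≤ 1 / c := by
          rw [← one_div]
          exact one_div_le_one_div_of_le hc h5
  have h7 : (pq α (k + 1) : ℝ) ≤ (⌈1 / c⌉ : ℤ) := h6.trans (Int.le_ceil _)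
  exact_mod_cast h7

variable {Ω : Type*} [MeasurableSpace Ω] {μ : Measure Ω} [IsProbabilityMeasure μ]

/-- **A badly approximable number and a random series.** -/
theorem bad_values {α : ℝ} (hbad : Bad α)
    {r : ℕ → ℚ} (hr0 : ∀ n, r n ≠ 0) (hr : Summable fun n => |(r n : ℝ)|) {ε : ℕ → Ω → ℤ}
    (hε : ∀ n, Measurable (ε n)) (hind : iIndepFun ε μ) {M : ℤ} (hM : ∀ n ω, |ε n ω| ≤ M)
    (y : ℝ) {δ : ℕ → ℝ} (hδ : ∀ n, 0 ≤ δ n)
    (hlaw : ∀ n, ∀ u : ℤ, μ.real {ω | ε n ω = u} ≤ 1 - δ n)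
    (hdiv : ¬ Summable fun n => δ n / Real.log (1 + ((r n).den : ℝ))) :
    ∀ᵐ ω ∂μ, ∀ γ τ : ℝ, 0 ≤ τ → ∀ e : ℝ, 0 < e → ∃ᶠ q : ℕ in atTop,
      |(q : ℝ) * |q * α - round (q * α)| *
        |(q * XR r ε y ω - γ) - round (q * XR r ε y ω - γ)| - τ| < e := by
  have hα := hbad.irrational
  obtain ⟨B, hB⟩ := pq_bound hbad
  obtain ⟨c, hc, hcb⟩ := hbad
  obtain ⟨s, hs, hs0, hD⟩ := exists_times (μ := μ) hα hB hr0 hr hε hind hM y hδ hlaw hdiv
  have hs1 : ∀ k, 1 ≤ s k := fun k => hs0.trans (hs.monotone (Nat.zero_le k))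
  -- convergence of the products along a subsequence
  have hmem : ∀ k, (den α (s k) : ℝ) * |th α (s k)| ∈ Set.Icc c 1 := by
    intro k
    obtain ⟨j, hj⟩ : ∃ j, s k = j + 1 := ⟨s k - 1, by have := hs1 k; omega⟩
    rw [hj]
    refine ⟨den_bad hcb hα j, ?_⟩
    calc (den α (j + 1) : ℝ) * |th α (j + 1)| ≤ den α (j + 1) * |th α j| := by
          have : (0 : ℝ) ≤ den α (j + 1) := by exact_mod_cast (den_nonneg hα (j + 1))
          exact mul_le_mul_of_nonneg_left (th_mono hα j) this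
      _ ≤ 1 := den_mul_th hα j
  obtain ⟨ξ, hξ, φ, hφ, hlim⟩ := isCompact_Icc.tendsto_subseq hmem
  have hξ0 : 0 < ξ := lt_of_lt_of_le hc hξ.1
  have hD' := hD.subseq hφ
  filter_upwards [dense_of_decorr (measurable_XR hr hε hM y) hD'] with ω hω
  intro γ τ hτ e he
  refine values_of_dense (Q := fun k => den α (s (φ k))) (P := fun k => num α (s (φ k))) ?_ ?_ hω
    hξ0 hlim γ hτ he
  · intro k
    obtain ⟨j, hj⟩ : ∃ j, s (φ k) = j + 1 := ⟨s (φ k) - 1, by have := hs1 (φ k); omega⟩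
    rw [hj]
    have := den_pos' hα j
    omega
  · have h1 : Tendsto (fun k => ((s (φ k) : ℕ) : ℝ) - 2) atTop atTop :=
      tendsto_atTop_add_const_right _ _
        (tendsto_natCast_atTop_atTop.comp ((hs.comp hφ).tendsto_atTop))
    refine tendsto_atTop_mono (fun k => ?_) h1
    have h2 := hs1 (φ k)
    rcases Nat.lt_or_ge (s (φ k)) 2 with h3 | h3
    · have h4 : s (φ k) = 1 := by omega
      rw [h4]
      have : (1 : ℝ) ≤ den α 1 := by simp [den]
      push_cast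
      linarith
    · obtain ⟨j, hj⟩ : ∃ j, s (φ k) = j + 2 := ⟨s (φ k) - 2, by omega⟩
      rw [hj]
      have h5 := den_ge hα j
      have h6 : (j : ℝ) ≤ den α (j + 2) := by exact_mod_cast h5
      push_cast
      linarith

/-- Littlewood's inequality is trivial if `α` is not badly approximable. -/
theorem not_bad {α : ℝ} (h : ¬ Bad α) (β : ℝ) {e : ℝ} (he : 0 < e) :
    ∃ᶠ q : ℕ in atTop, (q : ℝ) * |q * α - round (q * α)| * |q * β - round (q * β)| < e := by
  by_contra hcon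
  rw [Filter.not_frequently] at hcon
  obtain ⟨N, hN⟩ := Filter.eventually_atTop.1 hcon
  apply h
  -- no small values for large `q`, hence none at all
  have hbig : ∀ q : ℕ, N ≤ q → 1 ≤ q → e ≤ (q : ℝ) * |q * α - round (q * α)| := by
    intro q hq _
    have h1 := hN q hq
    rw [not_lt] at h1
    have h2 : |(q : ℝ) * β - round ((q : ℝ) * β)| ≤ 1 := (abs_sub_round _).trans (by norm_num)
    calc e ≤ _ := h1
      _ ≤ (q : ℝ) * |q * α - round (q * α)| * 1 := by gcongr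
      _ = _ := mul_one _
  refine ⟨e / ((N : ℝ) + 1) ^ 2, by positivity, fun q hq => ?_⟩
  have h1 := hbig (q * (N + 1)) (by nlinarith) (by nlinarith)
  have hq0 : (0 : ℝ) ≤ q := by positivity
  have h2 : |((q * (N + 1) : ℕ) : ℝ) * α - round (((q * (N + 1) : ℕ) : ℝ) * α)| ≤
      (N + 1) * |(q : ℝ) * α - round ((q : ℝ) * α)| := by
    refine (round_le _ (round ((q : ℝ) * α) * (N + 1))).trans (le_of_eq ?_)
    rw [show ((q * (N + 1) : ℕ) : ℝ) * α - ((round ((q : ℝ) * α) * (N + 1) : ℤ) : ℝ) =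
      ((N : ℝ) + 1) * ((q : ℝ) * α - round ((q : ℝ) * α)) by push_cast; ring, abs_mul,
      abs_of_pos (by positivity : (0 : ℝ) < (N : ℝ) + 1)]
  rw [div_le_iff₀ (by positivity)]
  calc e ≤ _ := h1
    _ ≤ ((q * (N + 1) : ℕ) : ℝ) * ((N + 1) * |(q : ℝ) * α - round ((q : ℝ) * α)|) := by gcongr
    _ = _ := by push_cast; ring

end Run7.h88.LQ
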