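import Pool.Agent.H380R2.CodeCF

/-! # Denominators of convergents modulo an integer

If the partial quotients are bounded, the multiples `D q_j r` of a fixed fraction `r` with
denominator `b > D` are far from the integers at least once in every block of `C log b` consecutive
indices `j`. -/

set_option autoImplicit false

open Finset
open Pool.Agent.H380R2.LC

namespace Run7.h88.LQ

theorem fib_grow {r b : ℕ → ℤ} {K : ℕ} (hb : ∀ k, 1 ≤ b k) (h0 : 0 ≤ r 0) (h1 : 0 ≤ r 1)
    (h01 : 1 ≤ r 0 + r 1) (hrec : ∀ k, k + 2 ≤ 2 * K + 1 → r (k + 2) = b k * r (k + 1) + r k) :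
    ∀ i, i ≤ K → 0 ≤ r (2 * i) ∧ 0 ≤ r (2 * i + 1) ∧ 2 ^ i ≤ r (2 * i) + r (2 * i + 1) := by
  intro i
  induction i with
  | zero =>
    intro _
    exact ⟨h0, h1, by simpa using h01⟩
  | succ i ih =>
    intro hi
    obtain ⟨h2, h3, h4⟩ := ih (by omega)
    have e1 := hrec (2 * i) (by omega)
    have e2 := hrec (2 * i + 1) (by omega)
    have b1 := hb (2 * i)
    have b2 := hb (2 * i + 1)
    rw [show 2 * (i + 1) = 2 * i + 2 by ring, show 2 * i + 2 + 1 = 2 * i + 1 + 2 by ring, e2,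
      show 2 * i + 1 + 1 = 2 * i + 2 by ring, e1, pow_succ]
    have h5 : r (2 * i + 1) ≤ b (2 * i) * r (2 * i + 1) := by nlinarith
    have h6 : 0 ≤ b (2 * i) * r (2 * i + 1) + r (2 * i) := by linarith
    have h7 : b (2 * i) * r (2 * i + 1) + r (2 * i) ≤
        b (2 * i + 1) * (b (2 * i) * r (2 * i + 1) + r (2 * i)) := by nlinarith
    refine ⟨h6, by linarith, by linarith⟩

theorem block {r b : ℕ → ℤ} (hb : ∀ k, 1 ≤ b k) {j₀ i : ℕ}
    (hrec : ∀ j, j₀ ≤ j → j + 2 ≤ j₀ + 4 * i + 1 → r (j + 2) = b j * r (j + 1) + r j)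
    (hne : ¬ (r (j₀ + 2 * i) = 0 ∧ r (j₀ + 2 * i + 1) = 0)) :
    ∃ j, j₀ ≤ j ∧ j ≤ j₀ + 4 * i + 1 ∧ 2 ^ i ≤ 2 * |r j| := by
  set c : ℕ := j₀ + 2 * i with hc
  -- forward
  have hfwd : ∀ σ : ℤ, |σ| = 1 → 0 ≤ σ * r c → 0 ≤ σ * r (c + 1) →
      ∃ j, j₀ ≤ j ∧ j ≤ j₀ + 4 * i + 1 ∧ 2 ^ i ≤ 2 * |r j| := by
    intro σ hσ h1 h2
    have h01 : 1 ≤ σ * r c + σ * r (c + 1) := by
      by_contra h
      rw [not_le] at h
      have h3 : σ * r c = 0 := by omega
      have h4 : σ * r (c + 1) = 0 := by omega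
      have hσ0 : σ ≠ 0 := by
        rintro rfl
        simp at hσ
      exact hne ⟨(mul_eq_zero.1 h3).resolve_left hσ0, (mul_eq_zero.1 h4).resolve_left hσ0⟩
    have h := fib_grow (r := fun k => σ * r (c + k)) (b := fun k => b (c + k)) (K := i)
      (fun k => hb _) (by simpa using h1) h2 (by simpa using h01) (by
        intro k hk
        show σ * r (c + (k + 2)) = b (c + k) * (σ * r (c + (k + 1))) + σ * r (c + k)
        have := hrec (c + k) (by omega) (by omega)
        rw [show c + (k + 2) = c + k + 2 by ring, this, show c + (k + 1) = c + k + 1 by ring]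
        ring) i le_rfl
    obtain ⟨h3, h4, h5⟩ := h
    rcases le_total (σ * r (c + 2 * i)) (σ * r (c + (2 * i + 1))) with h6 | h6
    · refine ⟨c + (2 * i + 1), by omega, by omega, ?_⟩
      have h7 : |r (c + (2 * i + 1))| = σ * r (c + (2 * i + 1)) := by
        rw [← abs_of_nonneg h4, abs_mul, hσ, one_mul]
      rw [h7]; linarith
    · refine ⟨c + 2 * i, by omega, by omega, ?_⟩
      have h7 : |r (c + 2 * i)| = σ * r (c + 2 * i) := by
        rw [← abs_of_nonneg h3, abs_mul, hσ, one_mul]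
      rw [h7]; linarith
  have hbwd : ∀ σ : ℤ, |σ| = 1 → 0 ≤ σ * r (c + 1) → 0 ≤ -(σ * r c) →
      ∃ j, j₀ ≤ j ∧ j ≤ j₀ + 4 * i + 1 ∧ 2 ^ i ≤ 2 * |r j| := by
    intro σ hσ h1 h2
    have h01 : 1 ≤ σ * r (c + 1) + -(σ * r c) := by
      by_contra h
      rw [not_le] at h
      have h3 : σ * r c = 0 := by omega
      have h4 : σ * r (c + 1) = 0 := by omega
      have hσ0 : σ ≠ 0 := by
        rintro rfl
        simp at hσ
      exact hne ⟨(mul_eq_zero.1 h3).resolve_left hσ0, (mul_eq_zero.1 h4).resolve_left hσ0⟩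
    have h := fib_grow (r := fun k => (-1) ^ k * (σ * r (c + 1 - k)))
      (b := fun k => b (c + 1 - (k + 2))) (K := i)
      (fun k => hb _) (by simpa using h1) (by simpa using h2) (by simpa using h01) (by
        intro k hk
        show (-1) ^ (k + 2) * (σ * r (c + 1 - (k + 2))) =
          b (c + 1 - (k + 2)) * ((-1) ^ (k + 1) * (σ * r (c + 1 - (k + 1)))) +
            (-1) ^ k * (σ * r (c + 1 - k))
        have := hrec (c + 1 - (k + 2)) (by omega) (by omega)
        rw [show c + 1 - (k + 2) + 2 = c + 1 - k by omega,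
          show c + 1 - (k + 2) + 1 = c + 1 - (k + 1) by omega] at this
        rw [this]
        ring) i le_rfl
    obtain ⟨h3, h4, h5⟩ := h
    have habs : ∀ k, |(-1 : ℤ) ^ k * (σ * r (c + 1 - k))| = |r (c + 1 - k)| := by
      intro k
      rw [abs_mul, abs_mul, hσ, abs_pow, abs_neg, abs_one, one_pow, one_mul, one_mul]
    rcases le_total ((-1) ^ (2 * i) * (σ * r (c + 1 - 2 * i)))
      ((-1) ^ (2 * i + 1) * (σ * r (c + 1 - (2 * i + 1)))) with h6 | h6
    · refine ⟨c + 1 - (2 * i + 1), by omega, by omega, ?_⟩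
      have h7 := habs (2 * i + 1)
      rw [abs_of_nonneg h4] at h7
      rw [← h7]; linarith
    · refine ⟨c + 1 - 2 * i, by omega, by omega, ?_⟩
      have h7 := habs (2 * i)
      rw [abs_of_nonneg h3] at h7
      rw [← h7]; linarith
  rcases le_total 0 (r c) with h1 | h1 <;> rcases le_total 0 (r (c + 1)) with h2 | h2
  · exact hfwd 1 (by simp) (by simpa using h1) (by simpa using h2)
  · exact hbwd (-1) (by simp) (by simpa using h2) (by simpa using h1)
  · exact hbwd 1 (by simp) (by simpa using h2) (by simpa using h1)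
  · exact hfwd (-1) (by simp) (by simpa using h1) (by simpa using h2)

theorem den_det (α : ℝ) (k : ℕ) :
    den α k * num α (k + 1) - den α (k + 1) * num α k = (-1) ^ (k + 1) := by
  induction k with
  | zero => simp [den, num]
  | succ k ih =>
    have h1 : den α (k + 1 + 1) = pq α (k + 1) * den α (k + 1) + den α k := rfl
    have h2 : num α (k + 1 + 1) = pq α (k + 1) * num α (k + 1) + num α k := rfl
    rw [h1, h2, pow_succ, ← ih]
    ring

/-- at least once in every block the number `D q_j c / b` is far from the integers -/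
theorem gap {α : ℝ} (hα : Irrational α) {B : ℤ} (hB : ∀ k, pq α (k + 1) ≤ B) {D b : ℕ} {c : ℤ}
    (hD : 0 < D) (hb : D < b) (hcb : IsCoprime c (b : ℤ)) {i : ℕ} (hi : b ≤ 2 ^ i) (j₀ : ℕ) :
    ∃ j, j₀ ≤ j ∧ j < j₀ + (4 * i + 2) ∧
      ∀ z : ℤ, (b : ℤ) ≤ (B + 2) * |D * den α j * c - b * z| := by
  have hB0 : 1 ≤ B := (pq_pos hα 0).trans (hB 0)
  have hb0 : (0 : ℤ) < b := by omega
  by_contra hcon
  push Not at hcon
  have hz : ∀ j, ∃ z : ℤ, j₀ ≤ j → j < j₀ + (4 * i + 2) →
      (B + 2) * |D * den α j * c - b * z| < b := by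
    intro j
    by_cases h : j₀ ≤ j ∧ j < j₀ + (4 * i + 2)
    · obtain ⟨z, hz⟩ := hcon j h.1 h.2
      exact ⟨z, fun _ _ => hz⟩
    · exact ⟨0, fun h1 h2 => absurd ⟨h1, h2⟩ h⟩
  choose z hz using hz
  have hrec : ∀ j, j₀ ≤ j → j + 2 ≤ j₀ + 4 * i + 1 →
      (D * den α (j + 2) * c - b * z (j + 2)) = pq α (j + 1) * (D * den α (j + 1) * c - b * z (j + 1))
        + (D * den α j * c - b * z j) := by
    intro j h1 h2
    have e1 := hz j h1 (by omega)
    have e2 := hz (j + 1) (by omega) (by omega)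
    have e3 := hz (j + 2) (by omega) (by omega)
    have hd : den α (j + 2) = pq α (j + 1) * den α (j + 1) + den α j := rfl
    have hp1 := hB j
    have hp0 := pq_pos hα j
    set x₀ := D * den α j * c - b * z j with hx0
    set x₁ := D * den α (j + 1) * c - b * z (j + 1) with hx1
    set x₂ := D * den α (j + 2) * c - b * z (j + 2) with hx2
    have hdiff : x₂ - (pq α (j + 1) * x₁ + x₀) =
        b * (pq α (j + 1) * z (j + 1) + z j - z (j + 2)) := by
      rw [hx0, hx1, hx2, hd]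
      ring
    have habs : |x₂ - (pq α (j + 1) * x₁ + x₀)| < b := by
      have h3 : |x₂ - (pq α (j + 1) * x₁ + x₀)| ≤ |x₂| + (B * |x₁| + |x₀|) := by
        calc _ ≤ |x₂| + |pq α (j + 1) * x₁ + x₀| := abs_sub _ _
          _ ≤ |x₂| + (|pq α (j + 1) * x₁| + |x₀|) := by gcongr; exact abs_add_le _ _
          _ ≤ _ := by
            rw [abs_mul, abs_of_pos (by linarith : 0 < pq α (j + 1))]
            gcongr
      have h4 : (B + 2) * (|x₂| + (B * |x₁| + |x₀|)) < (B + 2) * b := by nlinarith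
      have h5 : |x₂| + (B * |x₁| + |x₀|) < b := lt_of_mul_lt_mul_left h4 (by linarith)
      linarith
    rw [hdiff] at habs
    have h6 : (pq α (j + 1) * z (j + 1) + z j - z (j + 2)) = 0 := by
      by_contra h
      rw [abs_mul, abs_of_pos hb0] at habs
      have := Int.one_le_abs h
      nlinarith
    rw [h6, mul_zero] at hdiff
    linarith
  have hne : ¬ (D * den α (j₀ + 2 * i) * c - b * z (j₀ + 2 * i) = 0 ∧
      D * den α (j₀ + 2 * i + 1) * c - b * z (j₀ + 2 * i + 1) = 0) := by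
    rintro ⟨h1, h2⟩
    have h3 : (b : ℤ) ∣ D * den α (j₀ + 2 * i) := by
      have : (b : ℤ) ∣ (D * den α (j₀ + 2 * i)) * c := ⟨z (j₀ + 2 * i), by linarith⟩
      exact (hcb.symm).dvd_of_dvd_mul_right this
    have h4 : (b : ℤ) ∣ D * den α (j₀ + 2 * i + 1) := by
      have : (b : ℤ) ∣ (D * den α (j₀ + 2 * i + 1)) * c := ⟨z (j₀ + 2 * i + 1), by linarith⟩
      exact (hcb.symm).dvd_of_dvd_mul_right this
    have h5 : (b : ℤ) ∣ D * (-1) ^ (j₀ + 2 * i + 1) := by
      rw [← den_det α (j₀ + 2 * i), mul_sub, ← mul_assoc, ← mul_assoc]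
      exact dvd_sub (h3.mul_right _) (h4.mul_right _)
    have h6 : (b : ℤ) ∣ D := by
      rcases neg_one_pow_eq_or ℤ (j₀ + 2 * i + 1) with h | h
      · rw [h, mul_one] at h5; exact h5
      · rw [h, mul_neg, mul_one, dvd_neg] at h5; exact h5
    have h7 := Int.le_of_dvd (by exact_mod_cast hD) h6
    omega
  obtain ⟨j, h1, h2, h3⟩ := block (r := fun j => D * den α j * c - b * z j)
    (b := fun j => pq α (j + 1)) (fun k => pq_pos hα k) hrec hne
  have h4 := hz j h1 (by omega)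
  have h5 : (b : ℤ) ≤ 2 ^ i := by exact_mod_cast hi
  have h6 := abs_nonneg (D * den α j * c - b * z j)
  nlinarith

end Run7.h88.LQ
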