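import Pool.Agent.Run7.h88.LQ.Moment

/-! # Random series with rational terms -/

set_option autoImplicit false

open Finset MeasureTheory ProbabilityTheory Filter Topology
open Pool.Agent.H1R3.Det (Circ)
open Pool.Agent.N440.FO

namespace Run7.h88.LQ

variable {Ω : Type*} [MeasurableSpace Ω] {μ : Measure Ω} [IsProbabilityMeasure μ]

/-- the random number `y + ∑ ε_n r_n` -/
noncomputable def XR (r : ℕ → ℚ) (ε : ℕ → Ω → ℤ) (y : ℝ) (ω : Ω) : ℝ :=
  y + ∑' n, (ε n ω : ℝ) * (r n : ℝ)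

noncomputable def XRL (r : ℕ → ℚ) (ε : ℕ → Ω → ℤ) (y : ℝ) (L : ℕ) (ω : Ω) : ℝ :=
  y + ∑ n ∈ range L, (ε n ω : ℝ) * (r n : ℝ)

theorem summable_terms {r : ℕ → ℚ} (hr : Summable fun n => |(r n : ℝ)|) {ε : ℕ → ℤ} {M : ℤ}
    (hM : ∀ n, |ε n| ≤ M) : Summable (fun n => (ε n : ℝ) * (r n : ℝ)) := by
  refine Summable.of_norm_bounded (hr.mul_left (M : ℝ)) fun n => ?_
  rw [norm_mul, Real.norm_eq_abs, Real.norm_eq_abs]
  have : |(ε n : ℝ)| ≤ M := by exact_mod_cast hM n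
  gcongr

theorem tendsto_XRL {r : ℕ → ℚ} (hr : Summable fun n => |(r n : ℝ)|) {ε : ℕ → Ω → ℤ} {M : ℤ}
    (hM : ∀ n ω, |ε n ω| ≤ M) (y : ℝ) (ω : Ω) :
    Tendsto (fun L => XRL r ε y L ω) atTop (𝓝 (XR r ε y ω)) := by
  unfold XRL XR
  exact ((summable_terms hr (fun n => hM n ω)).hasSum.tendsto_sum_nat).const_add y

theorem measurable_XRL {r : ℕ → ℚ} {ε : ℕ → Ω → ℤ} (hε : ∀ n, Measurable (ε n)) (y : ℝ) (L : ℕ) :
    Measurable (XRL r ε y L) := by
  unfold XRL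
  refine measurable_const.add (Finset.measurable_sum _ fun n _ => ?_)
  exact (measurable_from_top.comp (hε n)).mul_const _

theorem measurable_XR {r : ℕ → ℚ} (hr : Summable fun n => |(r n : ℝ)|) {ε : ℕ → Ω → ℤ}
    (hε : ∀ n, Measurable (ε n)) {M : ℤ} (hM : ∀ n ω, |ε n ω| ≤ M) (y : ℝ) :
    Measurable (XR r ε y) :=
  measurable_of_tendsto_metrizable (fun L => measurable_XRL hε y L)
    (tendsto_pi_nhds.2 fun ω => tendsto_XRL hr hM y ω)

/-- the factors -/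
noncomputable def DR (μ : Measure Ω) (r : ℕ → ℚ) (ε : ℕ → Ω → ℤ) (θ : ℝ) (n : ℕ) : ℂ :=
  ∫ ω, e (θ * ((ε n ω : ℝ) * (r n : ℝ))) ∂μ

theorem norm_DR_le (r : ℕ → ℚ) (ε : ℕ → Ω → ℤ) (θ : ℝ) (n : ℕ) : ‖DR μ r ε θ n‖ ≤ 1 := by
  unfold DR
  have := norm_integral_le_of_norm_le_const (μ := μ)
    (f := fun ω => e (θ * ((ε n ω : ℝ) * (r n : ℝ)))) (C := 1)
    (Filter.Eventually.of_forall fun ω => (norm_e _).le)
  simpa using this

theorem integral_XRL {r : ℕ → ℚ} {ε : ℕ → Ω → ℤ} (hε : ∀ n, Measurable (ε n))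
    (hind : iIndepFun ε μ) (y θ : ℝ) (L : ℕ) :
    ∫ ω, e (θ * XRL r ε y L ω) ∂μ = e (θ * y) * ∏ n ∈ range L, DR μ r ε θ n := by
  have h1 : ∀ ω, e (θ * XRL r ε y L ω) = e (θ * y) *
      ∏ n : range L, (fun z : ℤ => e (θ * ((z : ℝ) * (r (n : ℕ) : ℝ)))) (ε n ω) := by
    intro ω
    unfold XRL
    rw [mul_add, e_add, Finset.mul_sum, e_sum]
    congr 1
    exact (Finset.prod_coe_sort (range L)
      (fun n => e (θ * ((ε n ω : ℝ) * (r n : ℝ))))).symm
  simp_rw [h1]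
  rw [integral_const_mul]
  congr 1
  have hX : iIndepFun (fun n : range L => ε n) μ := hind.precomp Subtype.val_injective
  have h2 := hX.integral_fun_prod_comp
    (f := fun n : range L => fun z : ℤ => e (θ * ((z : ℝ) * (r (n : ℕ) : ℝ))))
    (fun n => (hε n).aemeasurable)
    (fun n => (measurable_of_countable _).aestronglyMeasurable)
  rw [h2]
  exact Finset.prod_coe_sort (range L) (fun n => DR μ r ε θ n)

theorem norm_integral_XR_le {r : ℕ → ℚ} (hr : Summable fun n => |(r n : ℝ)|) {ε : ℕ → Ω → ℤ}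
    (hε : ∀ n, Measurable (ε n)) (hind : iIndepFun ε μ) {M : ℤ} (hM : ∀ n ω, |ε n ω| ≤ M)
    (y θ : ℝ) (A : Finset ℕ) :
    ‖∫ ω, e (θ * XR r ε y ω) ∂μ‖ ≤ ‖∏ n ∈ A, DR μ r ε θ n‖ := by
  have h1 : Tendsto (fun L => ∫ ω, e (θ * XRL r ε y L ω) ∂μ) atTop
      (𝓝 (∫ ω, e (θ * XR r ε y ω) ∂μ)) := by
    refine tendsto_integral_of_dominated_convergence (fun _ => (1 : ℝ)) ?_ (integrable_const _) ?_ ?_
    · intro L
      exact (measurable_e.comp ((measurable_XRL hε y L).const_mul θ)).aestronglyMeasurable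
    · intro L
      exact Filter.Eventually.of_forall fun ω => (norm_e _).le
    · refine Filter.Eventually.of_forall fun ω => ?_
      exact (continuous_e.tendsto _).comp ((tendsto_XRL hr hM y ω).const_mul θ)
  refine le_of_tendsto h1.norm ?_
  obtain ⟨L₀, hL₀⟩ : ∃ L₀, A ⊆ range L₀ := by
    refine ⟨A.sup id + 1, fun i hi => ?_⟩
    rw [Finset.mem_range]
    have := Finset.le_sup (f := id) hi
    simp only [id] at this
    omega
  filter_upwards [eventually_ge_atTop L₀] with L hL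
  rw [integral_XRL hε hind, norm_mul, norm_e, one_mul]
  have hsub : A ⊆ range L := hL₀.trans (Finset.range_subset_range.2 hL)
  rw [← Finset.prod_sdiff hsub, norm_mul]
  calc _ ≤ 1 * ‖∏ n ∈ A, DR μ r ε θ n‖ := by
        refine mul_le_mul_of_nonneg_right ?_ (norm_nonneg _)
        rw [norm_prod]
        exact Finset.prod_le_one (fun _ _ => norm_nonneg _) (fun n _ => norm_DR_le r ε θ n)
    _ = _ := one_mul _

theorem sum_law_one' {ξ : Ω → ℤ} (hξ : Measurable ξ) {M : ℤ} (hM : ∀ ω, |ξ ω| ≤ M) :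
    ∑ d ∈ Finset.Icc (-M) M, μ.real {ω | ξ ω = d} = 1 := by
  have h := integral_digit (μ := μ) hξ hM (fun _ => 1)
  simp only [integral_const, probReal_univ, mul_one, smul_eq_mul, one_smul] at h
  exact_mod_cast h.symm

theorem DR_sq_le {r : ℕ → ℚ} {ε : ℕ → Ω → ℤ} (hε : ∀ n, Measurable (ε n)) {M : ℤ}
    (hM : ∀ n ω, |ε n ω| ≤ M) {L : ℕ} (hL : 2 * M ≤ L) {δ : ℝ} {n : ℕ}
    (hlaw : ∀ u : ℤ, μ.real {ω | ε n ω = u} ≤ 1 - δ) (θ : ℝ) :
    ‖DR μ r ε θ n‖ ^ 2 ≤ 1 - δ / (2 * 4 ^ L) * W L (θ * (r n : ℝ)) := by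
  have h1 : DR μ r ε θ n =
      (∑ u ∈ Finset.Icc (-M) M, (μ.real {ω | ε n ω = u} : ℂ) * e (u * (θ * (r n : ℝ)))) := by
    unfold DR
    rw [integral_digit (hε n) (hM n) (fun z => e (θ * ((z : ℝ) * (r n : ℝ))))]
    refine Finset.sum_congr rfl fun u _ => ?_
    congr 2
    ring
  rw [h1]
  exact law_le hL (fun _ => measureReal_nonneg) (sum_law_one' (hε n) (hM n)) hlaw _

theorem one_sub_e {x ρ : ℝ} (hρ : ∀ z : ℤ, ρ ≤ |x - z|) : 4 * ρ ≤ ‖1 - e x‖ := by
  set t : ℝ := x - round x with ht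
  have h1 : e x = e t := by
    have : x = t + ((round x : ℤ) : ℝ) := by rw [ht]; ring
    rw [this, e_add, e_int, mul_one]
  have h2 : |t| ≤ 1 / 2 := abs_sub_round x
  have h3 : ρ ≤ |t| := hρ _
  have h4 : ‖1 - e t‖ = ‖(2 * Real.sin (Real.pi * t) : ℝ)‖ := by
    have h5 : e t = Complex.exp (Complex.I * ((2 * Real.pi * t : ℝ) : ℂ)) := by
      unfold Pool.Agent.N440.FO.e
      congr 1
      push_cast
      ring
    rw [h5, ← norm_neg, neg_sub, Complex.norm_exp_I_mul_ofReal_sub_one]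
    congr 3
    ring
  rw [h1, h4, Real.norm_eq_abs, abs_mul, abs_of_pos (by norm_num : (0 : ℝ) < 2)]
  have h6 : 2 * |t| ≤ |Real.sin (Real.pi * t)| := by
    have h7 : |Real.sin (Real.pi * t)| = Real.sin (Real.pi * |t|) := by
      rcases abs_cases t with ⟨h, h'⟩ | ⟨h, h'⟩
      · rw [h, abs_of_nonneg]
        apply Real.sin_nonneg_of_nonneg_of_le_pi
        · positivity
        · have : t ≤ 1 := by rw [h] at h2; linarith
          nlinarith [Real.pi_pos]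
      · rw [h, mul_neg, Real.sin_neg, abs_of_nonpos]
        apply Real.sin_nonpos_of_nonpos_of_neg_pi_le
        · nlinarith [Real.pi_pos]
        · have : -1 ≤ t := by rw [h] at h2; linarith
          nlinarith [Real.pi_pos]
    rw [h7]
    have h8 := Real.mul_le_sin (x := Real.pi * |t|) (by positivity)
      (by nlinarith [Real.pi_pos, abs_nonneg t])
    have h9 : 2 / Real.pi * (Real.pi * |t|) = 2 * |t| := by
      have := Real.pi_ne_zero
      field_simp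
    linarith
  linarith

/-- lower bound for the trigonometric polynomial -/
theorem W_ge {L : ℕ} {φ ρ : ℝ} (hρ : 0 ≤ ρ)
    (h : ∀ m : ℕ, 1 ≤ m → m ≤ L → ∀ z : ℤ, ρ ≤ |(m : ℝ) * φ - z|) : ((4 * ρ) ^ 2) ^ L ≤ W L φ := by
  unfold W
  rw [pol_eval, norm_prod, ← Finset.prod_pow]
  calc ((4 * ρ) ^ 2) ^ L = ∏ _k ∈ range L, (4 * ρ) ^ 2 := by simp
    _ ≤ _ := by
        refine Finset.prod_le_prod (fun k _ => by positivity) fun k hk => ?_
        have h1 := one_sub_e (h (k + 1) (by omega) (by have := Finset.mem_range.1 hk; omega))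
        rw [e_nsmul] at h1
        gcongr

/-- The second moment method: an open set is visited almost surely. -/
theorem visit_gen {Y : Ω → ℝ} (hY : Measurable Y) {q : ℕ → ℝ}
    (hmom : ∀ (H : ℕ) (η : ℝ), 0 < η → ∃ R : ℕ, 0 < R ∧ ∃ s : ℕ → ℕ, ∀ h : ℤ, h ≠ 0 → |h| ≤ H →
      ∫ ω, ‖∑ r ∈ range R, e ((h * q (s r)) * Y ω)‖ ^ 2 ∂μ ≤ (R : ℝ) ^ 2 * η)
    {U : Set Circ} (hU : IsOpen U) (hne : U.Nonempty) :
    ∀ᵐ ω ∂μ, ∃ n : ℕ, (((q n * Y ω : ℝ)) : Circ) ∈ U := by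
  classical
  obtain ⟨H, ρ, hρ, hd⟩ := dens hU hne
  rw [ae_iff]
  set Bad : Set Ω := {ω | ¬ ∃ n : ℕ, (((q n * Y ω : ℝ)) : Circ) ∈ U} with hBad
  have key : ∀ η : ℝ, 0 < η → μ.real Bad ≤ (2 * H + 1) * (η / ρ ^ 2) := by
    intro η hη
    obtain ⟨R, hR, s, hs⟩ := hmom H η hη
    have hR' : (0 : ℝ) < R := by exact_mod_cast hR
    set W : ℤ → Ω → ℝ := fun h ω =>
      ‖∑ r ∈ range R, e ((h * q (s r)) * Y ω)‖ ^ 2 with hW
    set F : Finset ℤ := (Finset.Icc (-(H : ℤ)) H).filter (fun h => h ≠ 0) with hF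
    have hsub : Bad ⊆ ⋃ h ∈ F, {ω | (R * ρ) ^ 2 ≤ W h ω} := by
      intro ω hω
      by_contra hcon
      apply hω
      have hsmall : Small H ρ R (fun r => q (s r) * Y ω) := by
        intro h hh hhH
        by_contra hlt
        rw [not_le] at hlt
        apply hcon
        rw [Set.mem_iUnion₂]
        refine ⟨h, ?_, ?_⟩
        · rw [hF, Finset.mem_filter, Finset.mem_Icc]
          exact ⟨abs_le.1 hhH, hh⟩
        · show (R * ρ) ^ 2 ≤ ‖∑ r ∈ range R, e ((h * q (s r)) * Y ω)‖ ^ 2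
          have e1 : ∑ r ∈ range R, e ((h * q (s r)) * Y ω) =
              ∑ r ∈ range R, e (h * (q (s r) * Y ω)) := by
            simp_rw [mul_assoc]
          rw [e1]
          gcongr
      obtain ⟨r, _, hr⟩ := hd R _ hR hsmall
      exact ⟨s r, hr⟩
    have hWint : ∀ h, Integrable (W h) μ := by
      intro h
      refine Integrable.of_bound (C := (R : ℝ) ^ 2) ?_ ?_
      · refine Measurable.aestronglyMeasurable ?_
        refine Measurable.pow_const ?_ 2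
        refine Measurable.norm ?_
        refine Finset.measurable_sum _ fun r _ => ?_
        exact measurable_e.comp (hY.const_mul _)
      · refine Filter.Eventually.of_forall fun ω => ?_
        rw [Real.norm_of_nonneg (by positivity)]
        show ‖∑ r ∈ range R, e ((h * q (s r)) * Y ω)‖ ^ 2 ≤ _
        gcongr
        calc _ ≤ ∑ r ∈ range R, ‖e ((h * q (s r)) * Y ω)‖ := norm_sum_le _ _
          _ = R := by simp [norm_e]
    have hmk : ∀ h ∈ F, μ.real {ω | (R * ρ) ^ 2 ≤ W h ω} ≤ η / ρ ^ 2 := by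
      intro h hh
      rw [hF, Finset.mem_filter, Finset.mem_Icc] at hh
      have h1 := mul_meas_ge_le_integral_of_nonneg (μ := μ) (f := W h)
        (Filter.Eventually.of_forall fun ω => by positivity) (hWint h) ((R * ρ) ^ 2)
      have h2 := hs h hh.2 (abs_le.2 hh.1)
      have h3 : (R * ρ) ^ 2 * μ.real {ω | (R * ρ) ^ 2 ≤ W h ω} ≤ (R : ℝ) ^ 2 * η := h1.trans h2
      rw [le_div_iff₀ (by positivity)]
      have h4 : (R : ℝ) ^ 2 * (μ.real {ω | (R * ρ) ^ 2 ≤ W h ω} * ρ ^ 2) ≤ (R : ℝ) ^ 2 * η := by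
        calc _ = (R * ρ) ^ 2 * μ.real {ω | (R * ρ) ^ 2 ≤ W h ω} := by ring
          _ ≤ _ := h3
      exact le_of_mul_le_mul_left h4 (by positivity)
    calc μ.real Bad ≤ μ.real (⋃ h ∈ F, {ω | (R * ρ) ^ 2 ≤ W h ω}) := measureReal_mono hsub (measure_ne_top _ _)
      _ ≤ ∑ h ∈ F, μ.real {ω | (R * ρ) ^ 2 ≤ W h ω} := measureReal_biUnion_finset_le _ _
      _ ≤ ∑ _h ∈ F, η / ρ ^ 2 := Finset.sum_le_sum hmk
      _ = F.card * (η / ρ ^ 2) := by simp
      _ ≤ (2 * H + 1) * (η / ρ ^ 2) := by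
          gcongr
          have h1 : F.card ≤ (Finset.Icc (-(H : ℤ)) H).card := Finset.card_filter_le _ _
          have h2 : (Finset.Icc (-(H : ℤ)) H).card = 2 * H + 1 := by
            rw [Int.card_Icc]; omega
          rw [h2] at h1
          exact_mod_cast h1
  have hz : μ.real Bad ≤ 0 := by
    refine le_of_forall_pos_le_add fun τ hτ => ?_
    rw [zero_add]
    have h1 := key (τ * ρ ^ 2 / (2 * H + 1)) (by positivity)
    refine h1.trans (le_of_eq ?_)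
    have : (2 * (H : ℝ) + 1) ≠ 0 := by positivity
    field_simp
  have hz' : μ.real Bad = 0 := le_antisymm hz measureReal_nonneg
  rwa [measureReal_eq_zero_iff] at hz'

/-- Asymptotic decorrelation of the multiples `Q k Y`. -/
def Decorr (μ : Measure Ω) (Y : Ω → ℝ) (Q : ℕ → ℤ) : Prop :=
  ∀ (H : ℕ) (η : ℝ), 0 < η → ∃ K, ∀ k, K ≤ k → ∀ l, l < k → ∀ h : ℤ, h ≠ 0 → |h| ≤ H →
    ‖∫ ω, e ((h * ((Q k : ℝ) - Q l)) * Y ω) ∂μ‖ ≤ η

theorem Decorr.subseq {Y : Ω → ℝ} {Q : ℕ → ℤ} (hD : Decorr μ Y Q) {φ : ℕ → ℕ}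
    (hφ : StrictMono φ) : Decorr μ Y (fun k => Q (φ k)) := by
  intro H η hη
  obtain ⟨K, hK⟩ := hD H η hη
  exact ⟨K, fun k hk l hl h hh hH => hK (φ k) (hk.trans (hφ.le_apply)) (φ l) (hφ hl) h hh hH⟩

theorem dense_of_decorr {Y : Ω → ℝ} (hY : Measurable Y) {Q : ℕ → ℤ} (hD : Decorr μ Y Q) :
    ∀ᵐ ω ∂μ, Dense (Set.range fun k : ℕ => (((Q k : ℝ) * Y ω : ℝ) : Circ)) := by
  have hmom : ∀ (H : ℕ) (η : ℝ), 0 < η → ∃ R : ℕ, 0 < R ∧ ∃ s : ℕ → ℕ, ∀ h : ℤ, h ≠ 0 → |h| ≤ H →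
      ∫ ω, ‖∑ r ∈ range R, e ((h * (Q (s r) : ℝ)) * Y ω)‖ ^ 2 ∂μ ≤ (R : ℝ) ^ 2 * η := by
    intro H η hη
    obtain ⟨K, hK⟩ := hD H (η / 2) (by positivity)
    obtain ⟨R, hR⟩ := exists_nat_gt (2 / η)
    have hR0 : (0 : ℝ) < R := lt_trans (by positivity) hR
    refine ⟨R, by exact_mod_cast hR0, fun r => K + r, fun h hh hH => ?_⟩
    refine (integral_sq_le hY R (fun r => h * (Q (K + r) : ℝ))).trans ?_
    have hle : ∀ r ∈ range R, ∀ r' ∈ range R,
        ‖∫ ω, e ((h * (Q (K + r) : ℝ) - h * (Q (K + r') : ℝ)) * Y ω) ∂μ‖ ≤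
          (if r = r' then 1 else 0) + η / 2 := by
      intro r _ r' _
      have key : ∀ r r' : ℕ, r' < r →
          ‖∫ ω, e ((h * (Q (K + r) : ℝ) - h * (Q (K + r') : ℝ)) * Y ω) ∂μ‖ ≤ η / 2 := by
        intro r r' hlt
        have := hK (K + r) (by omega) (K + r') (by omega) h hh hH
        simpa only [mul_sub] using this
      rcases lt_trichotomy r r' with hlt | heq | hgt
      · rw [if_neg (by omega), zero_add]
        have h1 := key r' r hlt
        have h2 : ‖∫ ω, e ((h * (Q (K + r) : ℝ) - h * (Q (K + r') : ℝ)) * Y ω) ∂μ‖ =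
            ‖∫ ω, e ((h * (Q (K + r') : ℝ) - h * (Q (K + r) : ℝ)) * Y ω) ∂μ‖ := by
          have h3 : ∀ ω, e ((h * (Q (K + r) : ℝ) - h * (Q (K + r') : ℝ)) * Y ω) =
              (starRingEnd ℂ) (e ((h * (Q (K + r') : ℝ) - h * (Q (K + r) : ℝ)) * Y ω)) := by
            intro ω
            rw [← e_neg]
            congr 1
            ring
          simp_rw [h3]
          rw [integral_conj, Complex.norm_conj]
        rw [h2]
        exact h1
      · rw [if_pos heq]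
        have h1 := norm_integral_le_of_norm_le_const (μ := μ)
          (f := fun ω => e ((h * (Q (K + r) : ℝ) - h * (Q (K + r') : ℝ)) * Y ω)) (C := 1)
          (Filter.Eventually.of_forall fun ω => (norm_e _).le)
        simp only [probReal_univ, mul_one] at h1
        linarith
      · rw [if_neg (by omega), zero_add]
        exact key r r' hgt
    calc _ ≤ ∑ r ∈ range R, ∑ r' ∈ range R, ((if r = r' then (1 : ℝ) else 0) + η / 2) :=
          Finset.sum_le_sum fun r hr => Finset.sum_le_sum fun r' hr' => hle r hr r' hr'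
      _ = R + (R : ℝ) ^ 2 * (η / 2) := by
          simp_rw [Finset.sum_add_distrib]
          rw [Finset.sum_congr rfl (fun r hr => by rw [Finset.sum_ite_eq, if_pos hr])]
          simp only [Finset.sum_const, card_range, nsmul_eq_mul, mul_one]
          ring
      _ ≤ (R : ℝ) ^ 2 * η := by
          rw [div_lt_iff₀ hη] at hR
          nlinarith
  obtain ⟨B, hBc, hBe, hB⟩ := TopologicalSpace.exists_countable_basis Circ
  have h1 : ∀ᵐ ω ∂μ, ∀ U ∈ B, ∃ n : ℕ, (((Q n : ℝ) * Y ω : ℝ) : Circ) ∈ U := by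
    rw [ae_ball_iff hBc]
    intro U hU
    exact visit_gen hY (q := fun n => (Q n : ℝ)) hmom (hB.isOpen hU)
      (Set.nonempty_iff_ne_empty.2 fun h0 => hBe (h0 ▸ hU))
  filter_upwards [h1] with ω hω
  rw [hB.dense_iff]
  intro U hU _
  obtain ⟨n, hn⟩ := hω U hU
  exact ⟨_, hn, n, rfl⟩

end Run7.h88.LQ
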