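import Pool.Agent.Run7.h88.LQ.Block
import Pool.Agent.Run7.h88.LQ.Series

/-! # Random series and the denominators of a badly approximable number -/

set_option autoImplicit false

open Finset MeasureTheory ProbabilityTheory Filter Topology
open Pool.Agent.H1R3.Det (Circ)
open Pool.Agent.N440.FO
open Pool.Agent.H380R2.LC

namespace Run7.h88.LQ

variable {Ω : Type*} [MeasurableSpace Ω] {μ : Measure Ω} [IsProbabilityMeasure μ]

theorem count_blocks {P : ℕ → Prop} [DecidablePred P] {L : ℕ} (hL : 0 < L) (J R : ℕ)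
    (h : ∀ j₀, ∃ j, j₀ ≤ j ∧ j < j₀ + L ∧ P j) :
    R / L ≤ ((Finset.Ico J (J + R)).filter P).card := by
  choose f hf1 hf2 hf3 using h
  have h1 : (range (R / L)).card ≤ ((Finset.Ico J (J + R)).filter P).card := by
    refine Finset.card_le_card_of_injOn (fun t => f (J + t * L)) ?_ ?_
    · intro t ht
      have ht' : t < R / L := Finset.mem_range.1 (Finset.mem_coe.1 ht)
      have h2 : (t + 1) * L ≤ R := by
        calc (t + 1) * L ≤ (R / L) * L := Nat.mul_le_mul_right L ht'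
          _ ≤ R := Nat.div_mul_le_self R L
      have h3 : (t + 1) * L = t * L + L := by ring
      rw [Finset.mem_coe, Finset.mem_filter, Finset.mem_Ico]
      have h4 := hf1 (J + t * L)
      have h5 := hf2 (J + t * L)
      exact ⟨⟨show J ≤ f (J + t * L) by omega, show f (J + t * L) < J + R by omega⟩, hf3 _⟩
    · have hmono : StrictMono (fun t => f (J + t * L)) := by
        refine strictMono_nat_of_lt_succ fun t => ?_
        have h4 := hf2 (J + t * L)
        have h5 := hf1 (J + (t + 1) * L)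
        have h3 : (t + 1) * L = t * L + L := by ring
        omega
      exact hmono.injective.injOn
  simpa using h1

/-- length of the blocks -/
def len (b : ℕ) : ℕ := 4 * (Nat.log 2 b + 1) + 2

theorem len_le {b : ℕ} (hb : 0 < b) : (len b : ℝ) ≤ 15 * Real.log (1 + b) := by
  have h1 : (2 : ℝ) ^ (Nat.log 2 b) ≤ b := by exact_mod_cast Nat.pow_log_le_self 2 hb.ne'
  have hb' : (1 : ℝ) ≤ b := by exact_mod_cast hb
  have h2 : (Nat.log 2 b : ℝ) * Real.log 2 ≤ Real.log (1 + b) := by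
    rw [← Real.log_pow]
    exact Real.log_le_log (by positivity) (by linarith)
  have h3 : Real.log 2 ≤ Real.log (1 + b) := Real.log_le_log (by norm_num) (by linarith)
  have h4 : 0.6931471803 < Real.log 2 := Real.log_two_gt_d9
  have h5 : ((len b : ℕ) : ℝ) = 4 * (Nat.log 2 b : ℝ) + 6 := by
    unfold len; push_cast; ring
  have h6 : (len b : ℝ) * Real.log 2 ≤ 10 * Real.log (1 + b) := by rw [h5]; nlinarith
  have h7 : (0 : ℝ) ≤ len b := by positivity
  nlinarith

theorem good_time {α : ℝ} (hα : Irrational α) {B : ℤ} (hB : ∀ k, pq α (k + 1) ≤ B) {r : ℕ → ℚ}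
    (hr0 : ∀ n, r n ≠ 0) (hr : Tendsto (fun n => (r n : ℝ)) atTop (𝓝 0)) {δ : ℕ → ℝ}
    (hδ : ∀ n, 0 ≤ δ n) (hdiv : ¬ Summable fun n => δ n / Real.log (1 + ((r n).den : ℝ)))
    {D : ℕ} (hD : 0 < D) (I J : ℕ) (A : ℝ) :
    ∃ j, J ≤ j ∧ ∃ F : Finset ℕ, (∀ n ∈ F, I ≤ n) ∧
      (∀ n ∈ F, ∀ z : ℤ, 1 / ((B : ℝ) + 2) ≤ |(D : ℝ) * den α j * r n - z|) ∧
      A ≤ ∑ n ∈ F, δ n := by
  classical
  have hB0 : 1 ≤ B := (pq_pos hα 0).trans (hB 0)
  have hBr : (1 : ℝ) ≤ B := by exact_mod_cast hB0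
  have hDr : (0 : ℝ) < D := by exact_mod_cast hD
  -- large denominators
  obtain ⟨I₁, hI₁⟩ : ∃ I₁, ∀ n, I₁ ≤ n → D < (r n).den := by
    have h1 : ∀ᶠ n in atTop, |(r n : ℝ)| < 1 / D := by
      have := (hr.abs).eventually_lt_const (show |(0 : ℝ)| < 1 / D by rw [abs_zero]; positivity)
      exact this
    obtain ⟨I₁, h2⟩ := Filter.eventually_atTop.1 h1
    refine ⟨I₁, fun n hn => ?_⟩
    have h3 := h2 n hn
    have hden : (0 : ℝ) < (r n).den := by exact_mod_cast (r n).den_pos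
    have h4 : |(r n : ℝ)| = |((r n).num : ℝ)| / (r n).den := by
      rw [Rat.cast_def, abs_div, abs_of_pos hden]
    have h5 : (1 : ℝ) ≤ |((r n).num : ℝ)| := by
      exact_mod_cast Int.one_le_abs (Rat.num_ne_zero.2 (hr0 n))
    rw [h4, div_lt_div_iff₀ hden hDr] at h3
    have h6 : (D : ℝ) < (r n).den := by nlinarith
    exact_mod_cast h6
  set I' : ℕ := max I I₁ with hI'
  set w : ℕ → ℝ := fun n => δ n / len (r n).den with hw
  have hlen0 : ∀ n, 0 < len (r n).den := fun n => by unfold len; omega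
  have hw0 : ∀ n, 0 ≤ w n := fun n => div_nonneg (hδ n) (by positivity)
  have hwns : ¬ Summable w := by
    intro h
    apply hdiv
    refine Summable.of_nonneg_of_le (fun n => ?_) (fun n => ?_) (h.mul_left 15)
    · refine div_nonneg (hδ n) (Real.log_nonneg ?_)
      have : (0 : ℝ) ≤ (r n).den := by positivity
      linarith
    · have h1 := len_le (r n).den_pos
      have h2 : (0 : ℝ) < len (r n).den := by exact_mod_cast hlen0 n
      have h3 : 0 < Real.log (1 + ((r n).den : ℝ)) := by linarith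
      rw [hw]
      show δ n / Real.log (1 + ((r n).den : ℝ)) ≤ 15 * (δ n / len (r n).den)
      rw [mul_div_assoc', div_le_div_iff₀ h3 h2]
      have := hδ n
      nlinarith
  have hwns' : ¬ Summable fun n => w (n + I') := fun h => hwns ((summable_nat_add_iff I').1 h)
  have htend := (not_summable_iff_tendsto_nat_atTop_of_nonneg (fun n => hw0 (n + I'))).1 hwns'
  obtain ⟨N, hN⟩ := (htend.eventually_ge_atTop (2 * max A 1)).exists
  set R : ℕ := ∑ i ∈ range N, len (r (i + I')).den with hR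
  have hRle : ∀ i ∈ range N, len (r (i + I')).den ≤ R := fun i hi =>
    Finset.single_le_sum (f := fun i => len (r (i + I')).den) (fun _ _ => Nat.zero_le _) hi
  have hR0 : 0 < R := by
    rcases Nat.eq_zero_or_pos N with h | h
    · exfalso
      rw [h] at hN
      simp only [Finset.range_zero, Finset.sum_empty] at hN
      have := le_max_right A 1
      linarith
    · exact lt_of_lt_of_le (hlen0 _) (hRle 0 (Finset.mem_range.2 h))
  set far : ℕ → ℕ → Prop := fun n j =>
    ∀ z : ℤ, (((r n).den : ℕ) : ℤ) ≤ (B + 2) * |D * den α j * (r n).num - (r n).den * z| with hfar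
  have hcount : ∀ i ∈ range N, (R : ℝ) / (2 * len (r (i + I')).den) ≤
      (((Finset.Ico J (J + R)).filter (far (i + I'))).card : ℝ) := by
    intro i hi
    set n := i + I' with hn
    have hcb : IsCoprime (r n).num (((r n).den : ℕ) : ℤ) := by
      rw [Int.isCoprime_iff_gcd_eq_one]
      have := (r n).reduced
      rw [Int.gcd, Int.natAbs_natCast]
      exact this
    have h1 := count_blocks (P := far n) (hlen0 n) J R (fun j₀ => by
      obtain ⟨j, h2, h3, h4⟩ := gap hα hB hD (hI₁ n (by omega)) hcb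
        (i := Nat.log 2 (r n).den + 1) (Nat.lt_pow_succ_log_self (by norm_num) _).le j₀
      exact ⟨j, h2, h3, h4⟩)
    have h2 : (R : ℝ) / (2 * len (r n).den) ≤ ((R / len (r n).den : ℕ) : ℝ) := by
      have hl : (0 : ℝ) < len (r n).den := by exact_mod_cast hlen0 n
      have h3 : 1 ≤ R / len (r n).den := (Nat.one_le_div_iff (hlen0 n)).2 (hRle i hi)
      have h4 : R < (R / len (r n).den + 1) * len (r n).den := by
        have := Nat.lt_mul_div_succ R (hlen0 n)
        rw [mul_comm]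
        exact this
      have h5 : (R : ℝ) < (((R / len (r n).den : ℕ) : ℝ) + 1) * len (r n).den := by
        exact_mod_cast h4
      have h6 : (1 : ℝ) ≤ ((R / len (r n).den : ℕ) : ℝ) := by exact_mod_cast h3
      rw [div_le_iff₀ (by positivity)]
      nlinarith
    exact h2.trans (by exact_mod_cast h1)
  -- averaging
  have hsum : ∑ _j ∈ Finset.Ico J (J + R), A ≤ ∑ j ∈ Finset.Ico J (J + R), ∑ i ∈ range N,
      (if far (i + I') j then δ (i + I') else 0) := by
    rw [Finset.sum_comm]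
    have h1 : ∀ i ∈ range N, (R : ℝ) / 2 * w (i + I') ≤
        ∑ j ∈ Finset.Ico J (J + R), (if far (i + I') j then δ (i + I') else 0) := by
      intro i hi
      rw [← Finset.sum_filter, Finset.sum_const, nsmul_eq_mul]
      have h2 := hcount i hi
      have h3 := hδ (i + I')
      calc (R : ℝ) / 2 * w (i + I') = (R : ℝ) / (2 * len (r (i + I')).den) * δ (i + I') := by
            rw [hw]
            have : (len (r (i + I')).den : ℝ) ≠ 0 := by
              exact_mod_cast (hlen0 _).ne'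
            field_simp
        _ ≤ _ := mul_le_mul_of_nonneg_right h2 h3
    calc ∑ _j ∈ Finset.Ico J (J + R), A = (R : ℝ) * A := by
          rw [Finset.sum_const, Nat.card_Ico, nsmul_eq_mul]
          congr 2
          omega
      _ ≤ (R : ℝ) / 2 * (2 * max A 1) := by
          have := le_max_left A 1
          have hR' : (0 : ℝ) ≤ R := by positivity
          nlinarith
      _ ≤ (R : ℝ) / 2 * ∑ i ∈ range N, w (i + I') := by gcongr
      _ = ∑ i ∈ range N, (R : ℝ) / 2 * w (i + I') := Finset.mul_sum _ _ _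
      _ ≤ _ := Finset.sum_le_sum h1
  obtain ⟨j, hj, hjA⟩ := Finset.exists_le_of_sum_le
    (Finset.nonempty_Ico.2 (by omega : J < J + R)) hsum
  rw [Finset.mem_Ico] at hj
  refine ⟨j, hj.1, ((range N).filter (fun i => far (i + I') j)).image (fun i => i + I'), ?_, ?_, ?_⟩
  · intro n hn
    obtain ⟨i, _, rfl⟩ := Finset.mem_image.1 hn
    omega
  · intro n hn z
    obtain ⟨i, hi, rfl⟩ := Finset.mem_image.1 hn
    have h1 := (Finset.mem_filter.1 hi).2 z
    set n := i + I' with hn'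
    have hden : (0 : ℝ) < (r n).den := by exact_mod_cast (r n).den_pos
    have h2 : ((r n).den : ℝ) ≤ ((B : ℝ) + 2) *
        |(D : ℝ) * den α j * (r n).num - (r n).den * z| := by exact_mod_cast h1
    have h3 : (D : ℝ) * den α j * (r n : ℝ) - z =
        ((D : ℝ) * den α j * (r n).num - (r n).den * z) / (r n).den := by
      rw [Rat.cast_def]
      field_simp
    rw [h3, abs_div, abs_of_pos hden, div_le_div_iff₀ (by linarith) hden]
    linarith
  · rw [Finset.sum_image (fun x _ y _ h => by simpa using h), Finset.sum_filter]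
    exact hjA

/-- a pair of times -/
theorem pair_small {r : ℕ → ℚ} (hr : Summable fun n => |(r n : ℝ)|) {ε : ℕ → Ω → ℤ}
    (hε : ∀ n, Measurable (ε n)) (hind : iIndepFun ε μ) {M : ℤ} (hM : ∀ n ω, |ε n ω| ≤ M)
    (y : ℝ) {δ : ℕ → ℝ} (hδ : ∀ n, 0 ≤ δ n)
    (hlaw : ∀ n, ∀ u : ℤ, μ.real {ω | ε n ω = u} ≤ 1 - δ n) {L D : ℕ} (hL : 2 * M ≤ L)
    (hD : 0 < D) {H : ℕ} (hDdvd : L.factorial * H.factorial ∣ D) {ρ : ℝ} (hρ : 0 < ρ)
    {F : Finset ℕ} {q : ℤ} (hfar : ∀ n ∈ F, ∀ z : ℤ, ρ ≤ |(D : ℝ) * q * r n - z|)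
    {h : ℤ} (hh : h ≠ 0) (hH : |h| ≤ H) :
    ‖∫ ω, e ((h * (q : ℝ)) * XR r ε y ω) ∂μ‖ ^ 2 ≤
      Real.exp (-((((4 * (ρ / D)) ^ 2) ^ L / (2 * 4 ^ L)) * ∑ n ∈ F, δ n)) := by
  set c : ℝ := ((4 * (ρ / D)) ^ 2) ^ L / (2 * 4 ^ L) with hc
  have hDr : (0 : ℝ) < D := by exact_mod_cast hD
  have h1 := norm_integral_XR_le hr hε hind hM y (h * (q : ℝ)) F
  calc ‖∫ ω, e ((h * (q : ℝ)) * XR r ε y ω) ∂μ‖ ^ 2
      ≤ ‖∏ n ∈ F, DR μ r ε (h * (q : ℝ)) n‖ ^ 2 := by gcongr
    _ = ∏ n ∈ F, ‖DR μ r ε (h * (q : ℝ)) n‖ ^ 2 := by rw [norm_prod, Finset.prod_pow]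
    _ ≤ ∏ n ∈ F, Real.exp (-(c * δ n)) := by
        refine Finset.prod_le_prod (fun n _ => by positivity) fun n hn => ?_
        have h2 := DR_sq_le hε hM hL (hlaw n) (μ := μ) (r := r) (h * (q : ℝ))
        have h3 : ((4 * (ρ / D)) ^ 2) ^ L ≤ W L ((h * (q : ℝ)) * (r n : ℝ)) := by
          refine W_ge (by positivity) fun m hm1 hmL z => ?_
          have hdvd : ((m : ℤ) * h) ∣ (D : ℤ) := by
            have e1 : (m : ℤ) ∣ (L.factorial : ℤ) := by
              exact_mod_cast Nat.dvd_factorial hm1 hmL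
            have e2 : h ∣ (H.factorial : ℤ) := by
              rw [← Int.natAbs_dvd]
              have h3 : h.natAbs ∣ H.factorial :=
                Nat.dvd_factorial (Int.natAbs_pos.2 hh) (by
                  have h9 : (h.natAbs : ℤ) = |h| := Int.natCast_natAbs h
                  omega)
              exact_mod_cast h3
            have e3 : ((L.factorial * H.factorial : ℕ) : ℤ) ∣ (D : ℤ) := by exact_mod_cast hDdvd
            refine (mul_dvd_mul e1 e2).trans ?_
            push_cast at e3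
            exact e3
          obtain ⟨g, hg⟩ := hdvd
          have hgr : (D : ℝ) = (m : ℝ) * h * g := by exact_mod_cast hg
          have hg0 : g ≠ 0 := by
            rintro rfl
            rw [mul_zero] at hg
            have : (D : ℤ) ≠ 0 := by exact_mod_cast hD.ne'
            exact this hg
          have hgD : |(g : ℝ)| ≤ D := by
            have : |g| ≤ (D : ℤ) := Int.le_of_dvd (by exact_mod_cast hD)
              ((abs_dvd g _).2 ⟨(m : ℤ) * h, by rw [hg]; ring⟩)
            exact_mod_cast this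
          have hg1 : 0 < |(g : ℝ)| := abs_pos.2 (by exact_mod_cast hg0)
          have h4 := hfar n hn (g * z)
          have h5 : (D : ℝ) * q * (r n : ℝ) - ((g * z : ℤ) : ℝ) =
              g * ((m : ℝ) * ((h * (q : ℝ)) * (r n : ℝ)) - z) := by
            rw [hgr]; push_cast; ring
          rw [h5, abs_mul] at h4
          rw [div_le_iff₀ hDr]
          calc ρ ≤ _ := h4
            _ ≤ |(m : ℝ) * ((h * (q : ℝ)) * (r n : ℝ)) - z| * D := by
                rw [mul_comm]
                exact mul_le_mul_of_nonneg_left hgD (abs_nonneg _)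
        have h4 : δ n / (2 * 4 ^ L) * ((4 * (ρ / D)) ^ 2) ^ L ≤
            δ n / (2 * 4 ^ L) * W L ((h * (q : ℝ)) * (r n : ℝ)) := by
          have := hδ n
          gcongr
        have h5 : c * δ n = δ n / (2 * 4 ^ L) * ((4 * (ρ / D)) ^ 2) ^ L := by rw [hc]; ring
        have h6 := Real.add_one_le_exp (-(c * δ n))
        linarith
    _ = Real.exp (-(c * ∑ n ∈ F, δ n)) := by
        rw [← Real.exp_sum, Finset.sum_neg_distrib, ← Finset.mul_sum]

theorem tendsto_of_summable_abs {r : ℕ → ℚ} (hr : Summable fun n => |(r n : ℝ)|) :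
    Tendsto (fun n => (r n : ℝ)) atTop (𝓝 0) := by
  have := hr.tendsto_atTop_zero
  exact (tendsto_zero_iff_abs_tendsto_zero _).2 this

/-- the next time -/
theorem next_time {α : ℝ} (hα : Irrational α) {B : ℤ} (hB : ∀ k, pq α (k + 1) ≤ B) {r : ℕ → ℚ}
    (hr0 : ∀ n, r n ≠ 0) (hr : Summable fun n => |(r n : ℝ)|) {ε : ℕ → Ω → ℤ}
    (hε : ∀ n, Measurable (ε n)) (hind : iIndepFun ε μ) {M : ℤ} (hM : ∀ n ω, |ε n ω| ≤ M)
    (y : ℝ) {δ : ℕ → ℝ} (hδ : ∀ n, 0 ≤ δ n)
    (hlaw : ∀ n, ∀ u : ℤ, μ.real {ω | ε n ω = u} ≤ 1 - δ n)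
    (hdiv : ¬ Summable fun n => δ n / Real.log (1 + ((r n).den : ℝ))) (H J : ℕ) {η : ℝ}
    (hη : 0 < η) :
    ∃ j, J ≤ j ∧ ∀ l, l < J → ∀ h : ℤ, h ≠ 0 → |h| ≤ H →
      ‖∫ ω, e ((h * ((den α j : ℝ) - den α l)) * XR r ε y ω) ∂μ‖ ≤ η := by
  have hB0 : 1 ≤ B := (pq_pos hα 0).trans (hB 0)
  have hBr : (1 : ℝ) ≤ B := by exact_mod_cast hB0
  set L : ℕ := (2 * M).toNat with hL
  have hLM : 2 * M ≤ L := Int.self_le_toNat _
  set D : ℕ := L.factorial * H.factorial with hDdef
  have hD : 0 < D := Nat.mul_pos (Nat.factorial_pos _) (Nat.factorial_pos _)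
  have hDr : (0 : ℝ) < D := by exact_mod_cast hD
  set ρ : ℝ := 1 / (2 * ((B : ℝ) + 2)) with hρ
  have hρ0 : 0 < ρ := by positivity
  set c : ℝ := ((4 * (ρ / D)) ^ 2) ^ L / (2 * 4 ^ L) with hc
  have hc0 : 0 < c := by positivity
  have hr' := tendsto_of_summable_abs hr
  -- the earlier denominators do not matter
  obtain ⟨I, hI⟩ : ∃ I, ∀ n, I ≤ n → ∀ l, l < J → |(D : ℝ) * den α l * r n| ≤ ρ := by
    have h1 : ∀ l, l < J → ∀ᶠ n in atTop, |(D : ℝ) * den α l * r n| ≤ ρ := by
      intro l _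
      have h2 : Tendsto (fun n => |(D : ℝ) * den α l * r n|) atTop (𝓝 |(D : ℝ) * den α l * 0|) :=
        (hr'.const_mul _).abs
      rw [mul_zero, abs_zero] at h2
      exact h2.eventually_le_const hρ0
    have h3 : ∀ᶠ n in atTop, ∀ l ∈ Finset.range J, |(D : ℝ) * den α l * r n| ≤ ρ := by
      rw [Filter.eventually_all_finset]
      exact fun l hl => h1 l (Finset.mem_range.1 hl)
    obtain ⟨I, h4⟩ := Filter.eventually_atTop.1 h3
    exact ⟨I, fun n hn l hl => h4 n hn l (Finset.mem_range.2 hl)⟩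
  -- the weight
  set A : ℝ := |Real.log (η ^ 2)| / c with hA
  obtain ⟨j, hj, F, hFI, hfar, hFA⟩ := good_time hα hB hr0 hr' hδ hdiv hD I J A
  refine ⟨j, hj, fun l hl h hh hH => ?_⟩
  have hfar' : ∀ n ∈ F, ∀ z : ℤ, ρ ≤ |(D : ℝ) * ((den α j - den α l : ℤ) : ℝ) * r n - z| := by
    intro n hn z
    have h1 := hfar n hn z
    have h2 := hI n (hFI n hn) l hl
    have h3 : (D : ℝ) * ((den α j - den α l : ℤ) : ℝ) * r n - z =
        ((D : ℝ) * den α j * r n - z) - (D : ℝ) * den α l * r n := by push_cast; ring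
    have h4 : 1 / ((B : ℝ) + 2) = 2 * ρ := by rw [hρ]; field_simp
    rw [h3]
    have h5 := abs_sub_abs_le_abs_sub ((D : ℝ) * den α j * r n - z) ((D : ℝ) * den α l * r n)
    linarith
  have h1 := pair_small hr hε hind hM y hδ hlaw hLM hD (H := H) (dvd_refl _) hρ0 hfar' hh hH
    (μ := μ)
  have h2 : Real.exp (-(c * ∑ n ∈ F, δ n)) ≤ η ^ 2 := by
    have h3 : |Real.log (η ^ 2)| ≤ c * ∑ n ∈ F, δ n := by
      rw [hA, div_le_iff₀ hc0] at hFA
      linarith
    calc Real.exp (-(c * ∑ n ∈ F, δ n)) ≤ Real.exp (Real.log (η ^ 2)) := by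
          rw [Real.exp_le_exp]
          have := neg_abs_le (Real.log (η ^ 2))
          linarith
      _ = η ^ 2 := Real.exp_log (by positivity)
  have h3 : ‖∫ ω, e ((h * ((den α j : ℝ) - den α l)) * XR r ε y ω) ∂μ‖ ^ 2 ≤ η ^ 2 := by
    refine le_trans ?_ (h1.trans h2)
    push_cast
    exact le_rfl
  exact (abs_le_of_sq_le_sq' h3 hη.le).2

/-- a sequence of times along which the multiples are asymptotically decorrelated -/
theorem exists_times {α : ℝ} (hα : Irrational α) {B : ℤ} (hB : ∀ k, pq α (k + 1) ≤ B)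
    {r : ℕ → ℚ} (hr0 : ∀ n, r n ≠ 0) (hr : Summable fun n => |(r n : ℝ)|) {ε : ℕ → Ω → ℤ}
    (hε : ∀ n, Measurable (ε n)) (hind : iIndepFun ε μ) {M : ℤ} (hM : ∀ n ω, |ε n ω| ≤ M)
    (y : ℝ) {δ : ℕ → ℝ} (hδ : ∀ n, 0 ≤ δ n)
    (hlaw : ∀ n, ∀ u : ℤ, μ.real {ω | ε n ω = u} ≤ 1 - δ n)
    (hdiv : ¬ Summable fun n => δ n / Real.log (1 + ((r n).den : ℝ))) :
    ∃ s : ℕ → ℕ, StrictMono s ∧ 1 ≤ s 0 ∧ Decorr μ (XR r ε y) (fun k => den α (s k)) := by
  have hn := fun (k J : ℕ) => next_time (μ := μ) hα hB hr0 hr hε hind hM y hδ hlaw hdiv k J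
    (η := 1 / ((k : ℝ) + 1)) (by positivity)
  choose g hg1 hg2 using hn
  set s : ℕ → ℕ := fun k => Nat.rec 1 (fun k sk => g (k + 1) (sk + 1)) k with hs
  have hs1 : ∀ k, s (k + 1) = g (k + 1) (s k + 1) := fun k => rfl
  have hmono : StrictMono s := by
    refine strictMono_nat_of_lt_succ fun k => ?_
    rw [hs1]
    exact hg1 (k + 1) (s k + 1)
  refine ⟨s, hmono, le_rfl, ?_⟩
  intro H η hη
  obtain ⟨K, hK⟩ := exists_nat_gt (1 / η)
  refine ⟨max H K + 1, fun k hk l hl h hh hH => ?_⟩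
  obtain ⟨k', rfl⟩ : ∃ k', k = k' + 1 := ⟨k - 1, by omega⟩
  have h1 := hg2 (k' + 1) (s k' + 1) (s l) (by
    have := hmono.monotone (show l ≤ k' by omega)
    omega) h hh (hH.trans (by
      have := le_max_left H K
      exact_mod_cast (by omega : H ≤ k' + 1)))
  rw [← hs1] at h1
  refine h1.trans ?_
  rw [div_le_iff₀ (by positivity)]
  rw [div_lt_iff₀ hη] at hK
  have h2 : (K : ℝ) ≤ ((k' + 1 : ℕ) : ℝ) := by
    have := le_max_right H K
    exact_mod_cast (by omega : K ≤ k' + 1)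
  nlinarith

end Run7.h88.LQ
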