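import Pool.Agent.N440.FO.Coll

/-! # Linear recurrences `G (k + 2) = t G (k + 1) - G k` modulo prime powers -/

set_option autoImplicit false

namespace Run7.h88.LQ

/-- the Lucas sequence of the parameters `t`, `1` -/
def U (t : ℤ) : ℕ → ℤ
  | 0 => 0
  | 1 => 1
  | (n + 2) => t * U t (n + 1) - U t n

/-- the recurrence -/
def IsRec (t : ℤ) (G : ℕ → ℤ) : Prop := ∀ k, G (k + 2) = t * G (k + 1) - G k

/-- the norm form of two consecutive terms -/
def nrm (t : ℤ) (G : ℕ → ℤ) (k : ℕ) : ℤ := G (k + 1) ^ 2 - t * G (k + 1) * G k + G k ^ 2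

variable {t : ℤ} {G : ℕ → ℤ}

theorem U_rec (t : ℤ) : IsRec t (U t) := fun _ => rfl

theorem U_zero (t : ℤ) : U t 0 = 0 := rfl

theorem U_one (t : ℤ) : U t 1 = 1 := rfl

theorem nrm_const (h : IsRec t G) (k : ℕ) : nrm t G k = nrm t G 0 := by
  induction k with
  | zero => rfl
  | succ k ih =>
    rw [← ih]
    unfold nrm
    have h1 : G (k + 1 + 1) = t * G (k + 1) - G k := h k
    rw [h1]
    ring

theorem nrm_U (t : ℤ) (k : ℕ) : U t (k + 1) ^ 2 - t * U t (k + 1) * U t k + U t k ^ 2 = 1 := by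
  have h := nrm_const (U_rec t) k
  unfold nrm at h
  rw [h]
  simp [U]

theorem rec_add (h : IsRec t G) (k j : ℕ) :
    G (k + j) = U t j * G (k + 1) - (t * U t j - U t (j + 1)) * G k ∧
    G (k + j + 1) = U t (j + 1) * G (k + 1) - U t j * G k := by
  induction j with
  | zero =>
    constructor
    · simp [U]
    · simp [U]
  | succ j ih =>
    obtain ⟨h1, h2⟩ := ih
    have h3 : U t (j + 1 + 1) = t * U t (j + 1) - U t j := rfl
    constructor
    · rw [show k + (j + 1) = k + j + 1 by ring, h2, h3]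
      ring
    · have h4 : G (k + (j + 1) + 1) = t * G (k + j + 1) - G (k + j) := h (k + j)
      rw [h4, h1, h2, h3]
      ring

theorem U_two_mul (t : ℤ) (h : ℕ) : U t (2 * h) = U t h * (2 * U t (h + 1) - t * U t h) := by
  have h1 := (rec_add (U_rec t) h h).1
  rw [show 2 * h = h + h by ring, h1]
  ring

theorem U_two_mul_add_one (t : ℤ) (h : ℕ) : U t (2 * h + 1) = U t (h + 1) ^ 2 - U t h ^ 2 := by
  have h1 := (rec_add (U_rec t) h h).2
  rw [show 2 * h + 1 = h + h + 1 by ring, h1]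
  ring

/-- the trace of the `h`-th power of the unit -/
def V (t : ℤ) (h : ℕ) : ℤ := 2 * U t (h + 1) - t * U t h

theorem V_two_mul (t : ℤ) (h : ℕ) : V t (2 * h) = 2 + (t ^ 2 - 4) * U t h ^ 2 := by
  unfold V
  rw [U_two_mul, U_two_mul_add_one]
  linear_combination (2 : ℤ) * (nrm_U t h)

theorem rec_V (hG : IsRec t G) (k h : ℕ) : G (k + 2 * h) = V t h * G (k + h) - G k := by
  have h1 := (rec_add hG k h).1
  have h2 := (rec_add hG k h).2
  have h3 := (rec_add hG (k + h) h).1
  have h4 := nrm_U t h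
  rw [show k + 2 * h = k + h + h by ring, h3, h2, h1]
  unfold V
  linear_combination (-(G k)) * h4

theorem U_mul (t : ℤ) (h s : ℕ) :
    ∃ w : ℤ, U t (h * s) = U t h * (s + (V t h - 2) * w) ∧
      ∃ w' : ℤ, U t (h * (s + 1)) = U t h * ((s : ℤ) + 1 + (V t h - 2) * w') := by
  induction s with
  | zero => exact ⟨0, by simp [U], 0, by simp⟩
  | succ s ih =>
    obtain ⟨w, h1, w', h2⟩ := ih
    refine ⟨w', by push_cast; exact h2, (s : ℤ) + 1 + V t h * w' - w, ?_⟩
    have h3 := rec_V (U_rec t) (h * s) h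
    rw [show h * (s + 1 + 1) = h * s + 2 * h by ring, h3, show h * s + h = h * (s + 1) by ring,
      h1, h2]
    push_cast
    ring

/-- lifting the exponent -/
theorem U_lift (t : ℤ) (h s : ℕ) :
    ∃ w : ℤ, U t (2 * h * s) = U t (2 * h) * (s + U t h ^ 2 * w) := by
  obtain ⟨w, h1, _⟩ := U_mul t (2 * h) s
  refine ⟨(t ^ 2 - 4) * w, ?_⟩
  rw [h1, V_two_mul]
  ring

theorem U_dvd (t : ℤ) (h s : ℕ) : U t h ∣ U t (h * s) := by
  obtain ⟨w, h1, _⟩ := U_mul t h s
  exact ⟨_, h1⟩

/-- the difference sequence -/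
def Df (G : ℕ → ℤ) (k : ℕ) : ℤ := G (k + 2) - G k

theorem Df_rec (hG : IsRec t G) : IsRec t (Df G) := by
  intro k
  unfold Df
  have h1 := hG (k + 2)
  have h2 := hG k
  rw [show k + 1 + 2 = k + 2 + 1 by ring]
  rw [h1, h2]
  ring

theorem nrm_Df (hG : IsRec t G) : nrm t (Df G) 0 = -(t ^ 2 - 4) * nrm t G 0 := by
  unfold nrm Df
  have h1 : G 2 = t * G 1 - G 0 := hG 0
  have h2 : G 3 = t * G 2 - G 1 := hG 1
  simp only [zero_add]
  rw [show (1 : ℕ) + 2 = 3 by norm_num, h2, h1]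
  ring

theorem rec_step (hG : IsRec t G) (k h : ℕ) :
    G (k + 2 * (h + 1)) = G k + U t (h + 1) * Df G (k + h) := by
  have h1 := (rec_add hG k h).1
  have h2 : G (k + h + 2) = U t (h + 2) * G (k + 1) - U t (h + 1) * G k := (rec_add hG k (h + 1)).2
  have h3 := (rec_add hG k (2 * h + 1)).2
  have h4 : U t (2 * h + 1 + 1) = U t (h + 1) * (2 * U t (h + 2) - t * U t (h + 1)) :=
    U_two_mul t (h + 1)
  have h5 := U_two_mul_add_one t h
  have h6 := nrm_U t h
  have h7 : U t (h + 2) = t * U t (h + 1) - U t h := rfl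
  unfold Df
  rw [show k + 2 * (h + 1) = k + (2 * h + 1) + 1 by ring, h3, h4, h5, h1, h2, h7]
  linear_combination (G k) * h6

theorem Df_mod (hG : IsRec t G) (k h s : ℕ) :
    ∃ z : ℤ, G (k + 2 * (h + 1) * s) = G k + U t (h + 1) * z := by
  induction s with
  | zero => exact ⟨0, by simp⟩
  | succ s ih =>
    obtain ⟨z, hz⟩ := ih
    refine ⟨z + Df G (k + 2 * (h + 1) * s + h), ?_⟩
    have h1 := rec_step hG (k + 2 * (h + 1) * s) h
    rw [show k + 2 * (h + 1) * (s + 1) = k + 2 * (h + 1) * s + 2 * (h + 1) by ring, h1, hz]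
    ring

/-- The terms of the progression with difference `2 h` are linear modulo `U h ^ 2`. -/
theorem rec_lin (hG : IsRec t G) (k h s : ℕ) :
    ∃ z : ℤ, G (k + 2 * (h + 1) * s) =
      G k + s * U t (h + 1) * Df G (k + h) + U t (h + 1) ^ 2 * z := by
  induction s with
  | zero => exact ⟨0, by simp⟩
  | succ s ih =>
    obtain ⟨z, hz⟩ := ih
    obtain ⟨z', hz'⟩ := Df_mod (Df_rec hG) (k + h) h s
    refine ⟨z + z', ?_⟩
    have h1 := rec_step hG (k + 2 * (h + 1) * s) h
    rw [show k + 2 * (h + 1) * (s + 1) = k + 2 * (h + 1) * s + 2 * (h + 1) by ring, h1,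
      show k + 2 * (h + 1) * s + h = k + h + 2 * (h + 1) * s by ring, hz', hz]
    push_cast
    ring

theorem U_pos (ht : 3 ≤ t) (k : ℕ) : 0 < U t (k + 1) ∧ U t k < U t (k + 1) := by
  induction k with
  | zero => simp [U]
  | succ k ih =>
    obtain ⟨h1, h2⟩ := ih
    have h3 : U t (k + 1 + 1) = t * U t (k + 1) - U t k := rfl
    have h4 : U t (k + 1) < U t (k + 1 + 1) := by rw [h3]; nlinarith
    exact ⟨by linarith, h4⟩

theorem U_le (ht : 3 ≤ t) (k : ℕ) : U t k ≤ t ^ k := by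
  have h0 : ∀ k, 0 ≤ U t k := by
    intro k
    rcases k with _ | k
    · simp [U]
    · exact (U_pos ht k).1.le
  induction k with
  | zero => simp [U]
  | succ k ih =>
    rcases k with _ | k
    · simp [U]; linarith
    · have h3 : U t (k + 1 + 1) = t * U t (k + 1) - U t k := rfl
      rw [h3, pow_succ]
      have := h0 k
      nlinarith

theorem exists_dvd (t : ℤ) {M : ℕ} (hM : 0 < M) : ∃ h : ℕ, (M : ℤ) ∣ U t (h + 1) := by
  have : NeZero M := ⟨hM.ne'⟩
  have key : ∀ k d : ℕ, ((U t k : ℤ) : ZMod M) = ((U t (k + d) : ℤ) : ZMod M) →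
      ((U t (k + 1) : ℤ) : ZMod M) = ((U t (k + d + 1) : ℤ) : ZMod M) →
      ((U t d : ℤ) : ZMod M) = 0 := by
    intro k
    induction k with
    | zero =>
      intro d h1 _
      rw [zero_add] at h1
      rw [← h1]
      simp [U]
    | succ k ih =>
      intro d h1 h2
      refine ih d ?_ ?_
      · have e1 : U t k = t * U t (k + 1) - U t (k + 1 + 1) := by
          have : U t (k + 1 + 1) = t * U t (k + 1) - U t k := rfl
          rw [this]; ring
        have e2 : U t (k + d) = t * U t (k + 1 + d) - U t (k + 1 + d + 1) := by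
          have : U t (k + 1 + d + 1) = t * U t (k + 1 + d) - U t (k + d) := by
            rw [show k + 1 + d + 1 = k + d + 2 by ring, show k + 1 + d = k + d + 1 by ring]
            rfl
          rw [this]; ring
        rw [e1, e2]
        push_cast
        rw [h1, h2]
      · rw [show k + d + 1 = k + 1 + d by ring]
        exact h1
  obtain ⟨x, y, hne, hxy⟩ := Finite.exists_ne_map_eq_of_infinite
    (fun k : ℕ => (((U t k : ℤ) : ZMod M), ((U t (k + 1) : ℤ) : ZMod M)))
  have main : ∀ x y : ℕ, x < y → (((U t x : ℤ) : ZMod M), ((U t (x + 1) : ℤ) : ZMod M)) =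
      (((U t y : ℤ) : ZMod M), ((U t (y + 1) : ℤ) : ZMod M)) → ∃ h : ℕ, (M : ℤ) ∣ U t (h + 1) := by
    intro x y hlt h
    rw [Prod.mk.injEq] at h
    obtain ⟨d, rfl⟩ := Nat.exists_eq_add_of_lt hlt
    refine ⟨d, ?_⟩
    rw [← ZMod.intCast_zmod_eq_zero_iff_dvd]
    exact key x (d + 1) (by rw [← add_assoc]; exact h.1) (by rw [← add_assoc]; exact h.2)
  rcases lt_or_gt_of_ne hne with h | h
  · exact main x y h hxy
  · exact main y x h hxy.symm

end Run7.h88.LQ
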