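import Pool.Agent.Run7.h88.LQ.Moment
import Pool.Agent.Run7.h88.LQ.Lucas

/-! # Exponential sums of linear recurrences of norm one -/

set_option autoImplicit false

open Finset
open Pool.Agent.N440.FO

namespace Run7.h88.LQ

variable {t : ℤ} {G : ℕ → ℤ}

/-- geometric sums of a root of unity -/
theorem geom_zero {θ : ℝ} {S : ℕ} (h1 : ∃ n : ℤ, S * θ = n) (h2 : ¬ ∃ n : ℤ, θ = n) :
    ∑ s ∈ range S, e (s * θ) = 0 := by
  have h3 : e θ ≠ 1 := fun h => h2 ((e_eq_one_iff θ).1 h)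
  have h4 : e θ ^ S = 1 := by
    rw [← e_nsmul]
    exact (e_eq_one_iff _).2 h1
  simp_rw [e_nsmul]
  have h5 := geom_sum_mul (e θ) S
  rw [h4, sub_self] at h5
  exact (mul_eq_zero.1 h5).resolve_right (sub_ne_zero.2 h3)

theorem card_sep {Z : Finset ℕ} {T J : ℕ} (hJ : 0 < J) (hZ : ∀ k ∈ Z, k < T)
    (h : ∀ k₁ ∈ Z, ∀ k₂ ∈ Z, k₁ < k₂ → J ≤ k₂ - k₁) : Z.card ≤ T / J + 1 := by
  classical
  have h1 : Set.InjOn (fun k => k / J) (Z : Set ℕ) := by
    intro x hx y hy hxy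
    simp only at hxy
    by_contra hne
    have key : ∀ x ∈ Z, ∀ y ∈ Z, x < y → x / J = y / J → False := by
      intro x hx y hy hlt hxy
      have h2 := h x hx y hy hlt
      have h3 := Nat.div_add_mod x J
      have h4 := Nat.div_add_mod y J
      have h5 := Nat.mod_lt x hJ
      have h6 := Nat.mod_lt y hJ
      rw [hxy] at h3
      omega
    rcases lt_or_gt_of_ne hne with h2 | h2
    · exact key x hx y hy h2 hxy
    · exact key y hy x hx h2 hxy.symm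
  calc Z.card = (Z.image fun k => k / J).card := (Finset.card_image_of_injOn h1).symm
    _ ≤ (range (T / J + 1)).card := by
        refine Finset.card_le_card fun x hx => ?_
        obtain ⟨k, hk, rfl⟩ := Finset.mem_image.1 hx
        rw [Finset.mem_range]
        exact Nat.lt_succ_of_le (Nat.div_le_div_right (hZ k hk).le)
    _ = T / J + 1 := Finset.card_range _

theorem val_step {p s : ℕ} (hp : Prime (p : ℤ)) {K : ℕ} (hs : (p * s : ℤ) ∣ U t K ^ 2) {x c : ℤ}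
    (hc : ¬ (p : ℤ) ∣ c) (h : U t (2 * K) = x * c) :
    ∃ c' : ℤ, ¬ (p : ℤ) ∣ c' ∧ U t (2 * K * s) = x * s * c' := by
  obtain ⟨w, hw⟩ := U_lift t K s
  obtain ⟨z, hz⟩ := hs
  refine ⟨c * (1 + p * (z * w)), ?_, ?_⟩
  · intro hd
    rcases hp.dvd_or_dvd hd with h1 | h1
    · exact hc h1
    · have h2 : (p : ℤ) ∣ 1 := (dvd_add_left (Dvd.intro _ rfl)).1 h1
      exact hp.not_isUnit (isUnit_of_dvd_one h2)
  · rw [hw, hz, h]
    ring

theorem val_U {p a' : ℕ} (hp : Prime (p : ℤ)) {h₁ : ℕ}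
    (hh : ((p * a' : ℕ) : ℤ) ∣ U t h₁) {ρ : ℕ} {b : ℤ} (hb : ¬ (p : ℤ) ∣ b)
    (hU : U t (2 * h₁) = (p : ℤ) ^ ρ * b) (N j : ℕ) :
    ∃ c : ℤ, ¬ (p : ℤ) ∣ c ∧
      U t (2 * (h₁ * a' ^ N * p ^ j)) = (p : ℤ) ^ (ρ + j) * (a' : ℤ) ^ N * c := by
  have hall : ∀ m, ((p * a' : ℕ) : ℤ) ∣ U t (h₁ * m) := fun m => hh.trans (U_dvd t h₁ m)
  have hN : ∀ N : ℕ, ∃ c : ℤ, ¬ (p : ℤ) ∣ c ∧
      U t (2 * (h₁ * a' ^ N)) = (p : ℤ) ^ ρ * (a' : ℤ) ^ N * c := by
    intro N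
    induction N with
    | zero => exact ⟨b, hb, by simpa using hU⟩
    | succ N ih =>
      obtain ⟨c, hc, hcU⟩ := ih
      have hs : ((p : ℤ) * (a' : ℕ)) ∣ U t (h₁ * a' ^ N) ^ 2 := by
        have := hall (a' ^ N)
        push_cast at this
        rw [pow_two]
        exact this.mul_right _
      obtain ⟨c', hc', hc''⟩ := val_step hp hs hc hcU
      refine ⟨c', hc', ?_⟩
      rw [show 2 * (h₁ * a' ^ (N + 1)) = 2 * (h₁ * a' ^ N) * a' by ring, hc'']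
      ring
  induction j with
  | zero =>
    obtain ⟨c, hc, hcU⟩ := hN N
    exact ⟨c, hc, by simpa using hcU⟩
  | succ j ih =>
    obtain ⟨c, hc, hcU⟩ := ih
    have hs : ((p : ℤ) * (p : ℕ)) ∣ U t (h₁ * a' ^ N * p ^ j) ^ 2 := by
      have h1 := hall (a' ^ N * p ^ j)
      push_cast at h1
      rw [← mul_assoc] at h1
      rw [pow_two]
      exact mul_dvd_mul ((Dvd.intro _ rfl).trans h1) ((Dvd.intro _ rfl).trans h1)
    obtain ⟨c', hc', hc''⟩ := val_step hp hs hc hcU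
    refine ⟨c', hc', ?_⟩
    rw [show 2 * (h₁ * a' ^ N * p ^ (j + 1)) = 2 * (h₁ * a' ^ N * p ^ j) * p by ring, hc'']
    ring

theorem inner_sum {k H' S n a : ℕ} (hG : IsRec t G) (ha : 0 < a) {c : ℤ}
    (h2 : (a : ℤ) ^ n ∣ U t (H' + 1) ^ 2) (h3 : (a : ℤ) ^ n ∣ S * U t (H' + 1))
    (h4 : ¬ (a : ℤ) ^ n ∣ U t (H' + 1) * Df G (k + H') * c) :
    ∑ s ∈ range S, e ((G (k + 2 * (H' + 1) * s) : ℝ) * ((c : ℝ) / (a : ℝ) ^ n)) = 0 := by
  have ha' : ((a : ℝ) ^ n) ≠ 0 := by positivity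
  set θ : ℝ := ((U t (H' + 1) * Df G (k + H') * c : ℤ) : ℝ) / (a : ℝ) ^ n with hθ
  obtain ⟨w, hw⟩ := h2
  have key : ∀ s ∈ range S, e ((G (k + 2 * (H' + 1) * s) : ℝ) * ((c : ℝ) / (a : ℝ) ^ n)) =
      e ((G k : ℝ) * ((c : ℝ) / (a : ℝ) ^ n)) * e (s * θ) := by
    intro s _
    obtain ⟨z, hz⟩ := rec_lin hG k H' s
    have e1 : (G (k + 2 * (H' + 1) * s) : ℝ) * ((c : ℝ) / (a : ℝ) ^ n) =
        ((G k : ℝ) * ((c : ℝ) / (a : ℝ) ^ n) + s * θ) + ((w * z * c : ℤ) : ℝ) := by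
      rw [hz, hw, hθ]
      push_cast
      field_simp
    rw [e1, e_add, e_int, mul_one, e_add]
  rw [Finset.sum_congr rfl key, ← Finset.mul_sum, geom_zero, mul_zero]
  · obtain ⟨w', hw'⟩ := h3
    refine ⟨w' * Df G (k + H') * c, ?_⟩
    have h5 : (S : ℝ) * (U t (H' + 1) : ℝ) = (a : ℝ) ^ n * w' := by exact_mod_cast hw'
    rw [hθ]
    push_cast
    rw [mul_div_assoc', div_eq_iff ha']
    linear_combination (Df G (k + H') * c : ℝ) * h5
  · rintro ⟨m, hm⟩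
    apply h4
    refine ⟨m, ?_⟩
    have h5 : ((U t (H' + 1) * Df G (k + H') * c : ℤ) : ℝ) = (a : ℝ) ^ n * m := by
      rw [← hm, hθ]
      field_simp
    exact_mod_cast h5

theorem sep (ht : 3 ≤ t) {D : ℕ → ℤ} (hD : IsRec t D) {p : ℕ} (hp : p.Prime) {φ g : ℕ}
    (hφ : ¬ (p : ℤ) ^ φ ∣ nrm t D 0) (hg : φ ≤ g) {k₁ d : ℕ} (hd : 0 < d) (h1 : (p : ℤ) ^ g ∣ D k₁)
    (h2 : (p : ℤ) ^ g ∣ D (k₁ + d)) : g - φ ≤ t.toNat * d := by
  have hpi := Nat.prime_iff_prime_int.1 hp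
  have h3 := (rec_add hD k₁ d).1
  have h4 : (p : ℤ) ^ g ∣ U t d * D (k₁ + 1) := by
    have : U t d * D (k₁ + 1) = D (k₁ + d) + (t * U t d - U t (d + 1)) * D k₁ := by
      rw [h3]; ring
    rw [this]
    exact dvd_add h2 (Dvd.dvd.mul_left h1 _)
  have h5 : ¬ (p : ℤ) ^ φ ∣ D (k₁ + 1) := by
    intro h
    apply hφ
    rw [← nrm_const hD k₁]
    unfold nrm
    have h1' : (p : ℤ) ^ φ ∣ D k₁ := (pow_dvd_pow _ hg).trans h1
    refine dvd_add (dvd_sub ?_ ?_) ?_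
    · exact h.trans (dvd_pow_self _ (by norm_num))
    · exact (h.mul_left t).mul_right _
    · exact h1'.trans (dvd_pow_self _ (by norm_num))
  have h6 : (p : ℤ) ^ (g - φ) ∣ U t d := by
    by_contra h
    apply not_pow_dvd_mul hpi h h5
    rw [Nat.sub_add_cancel hg]
    exact h4
  have hUpos : 0 < U t d := by
    obtain ⟨d', rfl⟩ := Nat.exists_eq_succ_of_ne_zero hd.ne'
    exact (U_pos ht d').1
  have h7 : (p : ℤ) ^ (g - φ) ≤ U t d := Int.le_of_dvd hUpos h6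
  have h8 : U t d ≤ t ^ d := U_le ht d
  have h9 : (t.toNat : ℤ) = t := Int.toNat_of_nonneg (by linarith)
  have h10 : p ^ (g - φ) ≤ t.toNat ^ d := by
    have : (p : ℤ) ^ (g - φ) ≤ (t.toNat : ℤ) ^ d := by rw [h9]; exact h7.trans h8
    exact_mod_cast this
  have h11 : 2 ^ (g - φ) ≤ 2 ^ (t.toNat * d) := by
    calc 2 ^ (g - φ) ≤ p ^ (g - φ) := Nat.pow_le_pow_left hp.two_le _
      _ ≤ t.toNat ^ d := h10
      _ ≤ (2 ^ t.toNat) ^ d := Nat.pow_le_pow_left Nat.lt_two_pow_self.le _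
      _ = 2 ^ (t.toNat * d) := (pow_mul _ _ _).symm
  exact (Nat.pow_le_pow_iff_right (by norm_num)).1 h11

theorem sum_range_mul_eq {f : ℕ → ℂ} (T S : ℕ) :
    ∑ r ∈ range (T * S), f r = ∑ k ∈ range T, ∑ s ∈ range S, f (k + T * s) := by
  induction S with
  | zero => simp
  | succ S ih =>
    rw [Nat.mul_succ, Finset.sum_range_add, ih, ← Finset.sum_add_distrib]
    refine Finset.sum_congr rfl fun k _ => ?_
    rw [Finset.sum_range_succ, add_comm (T * S) k]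

/-- The exponential sums of a linear recurrence. -/
theorem psum_of_rec (ht : 3 ≤ t) (hG : IsRec t G) (hn : nrm t G 0 ≠ 0) {p a : ℕ} (hp : p.Prime)
    (hpa : p ∣ a) (ha : 0 < a) : PSum G p a := by
  classical
  have hpi := Nat.prime_iff_prime_int.1 hp
  obtain ⟨v, a', ha', hav⟩ := Nat.exists_eq_pow_mul_and_not_dvd ha.ne' p hp.ne_one
  have hv : 1 ≤ v := by
    by_contra h
    have h0 : v = 0 := by omega
    subst h0
    rw [pow_zero, one_mul] at hav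
    exact ha' (hav ▸ hpa)
  have ha'0 : 0 < a' := by
    rcases Nat.eq_zero_or_pos a' with h | h
    · subst h
      exact absurd (dvd_zero p) ha'
    · exact h
  obtain ⟨h₀, hh⟩ := exists_dvd t (M := p * a') (Nat.mul_pos hp.pos ha'0)
  have hpos : 0 < U t (2 * (h₀ + 1)) := (U_pos ht (2 * h₀ + 1)).1
  obtain ⟨ρ, b, hb, hU⟩ : ∃ (ρ : ℕ) (b : ℤ), ¬ (p : ℤ) ∣ b ∧
      U t (2 * (h₀ + 1)) = (p : ℤ) ^ ρ * b := by
    have hfin : FiniteMultiplicity (p : ℤ) (U t (2 * (h₀ + 1))) :=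
      Int.finiteMultiplicity_iff.2 ⟨by simpa using hp.ne_one, hpos.ne'⟩
    obtain ⟨b, hb, hb'⟩ := hfin.exists_eq_pow_mul_and_not_dvd
    exact ⟨_, b, hb', hb⟩
  have hD := Df_rec hG
  have hnD : nrm t (Df G) 0 ≠ 0 := by
    rw [nrm_Df hG]
    refine mul_ne_zero ?_ hn
    nlinarith
  obtain ⟨φ, hφ⟩ : ∃ φ : ℕ, ¬ (p : ℤ) ^ φ ∣ nrm t (Df G) 0 := by
    have hfin : FiniteMultiplicity (p : ℤ) (nrm t (Df G) 0) :=
      Int.finiteMultiplicity_iff.2 ⟨by simpa using hp.ne_one, hnD⟩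
    obtain ⟨m, hm⟩ := hfin
    exact ⟨m + 1, hm⟩
  intro l κ hκ
  obtain ⟨J, hJ⟩ := exists_nat_gt (2 / κ)
  have hJ0 : 0 < J := by
    have : (0 : ℝ) < J := lt_trans (by positivity) hJ
    exact_mod_cast this
  refine ⟨2 * (ρ + l + φ + t.toNat * J + J + 1), fun N => ?_⟩
  refine ⟨4 * (h₀ + 1) * a' ^ N * p ^ (v * N + 1), by have := hp.pos; positivity, id, ?_⟩
  intro n hn0 hnN c hc
  have hvn : n ≤ v * n := Nat.le_mul_of_pos_left n hv
  have hvN : v * n ≤ v * N := Nat.mul_le_mul_left v hnN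
  set j : ℕ := (v * n + 1) / 2 with hj
  set g : ℕ := v * n - (ρ + j + l) with hg
  set S : ℕ := p ^ (v * N + 1 - j) with hS
  set T : ℕ := 4 * (h₀ + 1) * a' ^ N * p ^ j with hT
  have hjN : j ≤ v * N + 1 := by omega
  have hR : 4 * (h₀ + 1) * a' ^ N * p ^ (v * N + 1) = T * S := by
    rw [hT, hS, mul_assoc _ (p ^ j), ← pow_add, Nat.add_sub_cancel' hjN]
  obtain ⟨H', hH'⟩ : ∃ H' : ℕ, 2 * ((h₀ + 1) * a' ^ N * p ^ j) = H' + 1 := by
    have : 0 < 2 * ((h₀ + 1) * a' ^ N * p ^ j) := by have := hp.pos; positivity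
    exact ⟨2 * ((h₀ + 1) * a' ^ N * p ^ j) - 1, by omega⟩
  have hTH : T = 2 * (H' + 1) := by rw [hT, ← hH']; ring
  obtain ⟨c', hc', hcU⟩ := val_U hpi hh hb hU N j
  rw [hH'] at hcU
  have han : (a : ℤ) ^ n = (p : ℤ) ^ (v * n) * (a' : ℤ) ^ n := by
    rw [hav]; push_cast; rw [mul_pow, pow_mul]
  have hd2 : (a : ℤ) ^ n ∣ U t (H' + 1) ^ 2 := by
    rw [han, hcU]
    have e1 : ((p : ℤ) ^ (ρ + j) * (a' : ℤ) ^ N * c') ^ 2 =
        (p : ℤ) ^ (2 * (ρ + j)) * (a' : ℤ) ^ (2 * N) * c' ^ 2 := by ring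
    rw [e1]
    exact (mul_dvd_mul (pow_dvd_pow _ (by omega)) (pow_dvd_pow _ (by omega))).mul_right _
  have hd3 : (a : ℤ) ^ n ∣ S * U t (H' + 1) := by
    rw [han, hcU, hS]
    push_cast
    have e1 : (p : ℤ) ^ (v * N + 1 - j) * ((p : ℤ) ^ (ρ + j) * (a' : ℤ) ^ N * c') =
        (p : ℤ) ^ (v * N + 1 + ρ) * (a' : ℤ) ^ N * c' := by
      have e2 : v * N + 1 + ρ = (v * N + 1 - j) + (ρ + j) := by omega
      rw [e2, pow_add]
      ring
    rw [e1]
    exact (mul_dvd_mul (pow_dvd_pow _ (by omega)) (pow_dvd_pow _ hnN)).mul_right _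
  -- the exceptional residues
  set Z : Finset ℕ := (range T).filter (fun k => (p : ℤ) ^ g ∣ Df G (k + H')) with hZ
  have hzero : ∀ k, k ∉ Z → k ∈ range T →
      ∑ s ∈ range S, e ((G (id (k + T * s)) : ℝ) * ((c : ℝ) / (a : ℝ) ^ n)) = 0 := by
    intro k hkZ hk
    have hk' : ¬ (p : ℤ) ^ g ∣ Df G (k + H') := by
      intro h
      exact hkZ (Finset.mem_filter.2 ⟨hk, h⟩)
    rw [hTH]
    refine inner_sum hG ha hd2 hd3 ?_
    intro hdiv
    have h1 : (p : ℤ) ^ (v * n) ∣ U t (H' + 1) * Df G (k + H') * c :=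
      (Dvd.intro _ han.symm).trans hdiv
    rw [hcU] at h1
    have e1 : (p : ℤ) ^ (ρ + j) * (a' : ℤ) ^ N * c' * Df G (k + H') * c =
        (p : ℤ) ^ (ρ + j) * (((a' : ℤ) ^ N * c') * (Df G (k + H') * c)) := by ring
    have e2 : v * n = (ρ + j) + (g + l) := by omega
    rw [e1, e2, pow_add] at h1
    have h2 := Int.dvd_of_mul_dvd_mul_left (by
      have := hpi.ne_zero
      positivity) h1
    have hcop : IsCoprime ((p : ℤ) ^ (g + l)) ((a' : ℤ) ^ N * c') := by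
      refine IsCoprime.pow_left ?_
      refine IsCoprime.mul_right ?_ ?_
      · refine IsCoprime.pow_right ?_
        rw [Nat.isCoprime_iff_coprime]
        exact (Nat.Prime.coprime_iff_not_dvd hp).2 ha'
      · exact (Prime.coprime_iff_not_dvd hpi).2 hc'
    exact not_pow_dvd_mul hpi hk' hc (hcop.dvd_of_dvd_mul_left h2)
  have hcard : Z.card ≤ T / J + 1 := by
    refine card_sep hJ0 (fun k hk => Finset.mem_range.1 (Finset.mem_filter.1 hk).1) ?_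
    intro k₁ hk₁ k₂ hk₂ hlt
    obtain ⟨d, rfl⟩ := Nat.exists_eq_add_of_lt hlt
    have h1 := (Finset.mem_filter.1 hk₁).2
    have h2 := (Finset.mem_filter.1 hk₂).2
    have h3 := sep ht hD hp hφ (g := g) (by omega) (k₁ := k₁ + H') (d := d + 1) (by omega) h1
      (by rw [show k₁ + H' + (d + 1) = k₁ + d + 1 + H' by ring]; exact h2)
    have h4 : t.toNat * J ≤ g - φ := by omega
    have h5 : t.toNat * J ≤ t.toNat * (d + 1) := h4.trans h3
    have h6 : 0 < t.toNat := by omega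
    have h7 := Nat.le_of_mul_le_mul_left h5 h6
    omega
  have hTJ : J ≤ T := by
    have h1 : j < p ^ j := Nat.lt_pow_self hp.one_lt
    have h2 : p ^ j ≤ T := by
      rw [hT]
      exact Nat.le_mul_of_pos_left _ (by positivity)
    omega
  rw [hR, sum_range_mul_eq]
  calc ‖∑ k ∈ range T, ∑ s ∈ range S, e ((G (id (k + T * s)) : ℝ) * ((c : ℝ) / (a : ℝ) ^ n))‖
      ≤ ∑ k ∈ range T, ‖∑ s ∈ range S, e ((G (id (k + T * s)) : ℝ) * ((c : ℝ) / (a : ℝ) ^ n))‖ :=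
        norm_sum_le _ _
    _ = ∑ k ∈ Z, ‖∑ s ∈ range S, e ((G (id (k + T * s)) : ℝ) * ((c : ℝ) / (a : ℝ) ^ n))‖ := by
        symm
        refine Finset.sum_subset (Finset.filter_subset _ _) fun k hk hkZ => ?_
        rw [hzero k hkZ hk, norm_zero]
    _ ≤ ∑ _k ∈ Z, (S : ℝ) := by
        refine Finset.sum_le_sum fun k _ => ?_
        calc _ ≤ ∑ s ∈ range S, ‖e ((G (id (k + T * s)) : ℝ) * ((c : ℝ) / (a : ℝ) ^ n))‖ :=
              norm_sum_le _ _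
          _ = S := by simp [norm_e]
    _ = Z.card * S := by rw [Finset.sum_const, nsmul_eq_mul]
    _ ≤ ((T * S : ℕ) : ℝ) * κ := by
        have hJr : (0 : ℝ) < J := by exact_mod_cast hJ0
        have h1 : (Z.card : ℝ) ≤ (T : ℝ) / J + 1 := by
          have h2 : (Z.card : ℝ) ≤ ((T / J + 1 : ℕ) : ℝ) := by exact_mod_cast hcard
          have h3 : ((T / J : ℕ) : ℝ) ≤ (T : ℝ) / J := Nat.cast_div_le
          push_cast at h2
          linarith
        have h2 : (1 : ℝ) ≤ (T : ℝ) / J := by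
          rw [le_div_iff₀ hJr, one_mul]
          exact_mod_cast hTJ
        have h3 : (Z.card : ℝ) ≤ (T : ℝ) * κ := by
          calc (Z.card : ℝ) ≤ 2 * ((T : ℝ) / J) := by linarith
            _ = (T : ℝ) * (2 / J) := by ring
            _ ≤ (T : ℝ) * κ := by
                gcongr
                rw [div_le_iff₀ hJr]
                rw [div_lt_iff₀ hκ] at hJ
                linarith
        calc (Z.card : ℝ) * S ≤ ((T : ℝ) * κ) * S := by gcongr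
          _ = ((T * S : ℕ) : ℝ) * κ := by push_cast; ring

end Run7.h88.LQ
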