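import Pool.Agent.N440.FO.Visit2

/-! # Random digits at sparse places and general integer sequences

The second moment method of `Pool.Agent.N440.FO` (there for the sequences `b ^ n`), with approximate
instead of exact vanishing of the exponential sums, for arbitrary integer sequences `Q`. -/

set_option autoImplicit false

open Finset MeasureTheory ProbabilityTheory Filter Topology
open Pool.Agent.H1R3.Det (Circ)
open Pool.Agent.N440.FO

namespace Run7.h88.LQ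

variable {Ω : Type*} [MeasurableSpace Ω] {μ : Measure Ω} [IsProbabilityMeasure μ]

theorem second_moment_eq {ι : Type*} (s : Finset ι) (w : ι → ℝ) (X : ι → ℝ) (R : ℕ)
    (t : ℕ → ℝ) :
    ∑ r ∈ range R, ∑ r' ∈ range R, ‖∑ d ∈ s, (w d : ℂ) * e ((t r - t r') * X d)‖ ^ 2 =
      ∑ d ∈ s, ∑ d' ∈ s, w d * w d' * ‖∑ r ∈ range R, e (t r * (X d - X d'))‖ ^ 2 := by
  classical
  have key : ∀ θ : ℝ, ((‖∑ d ∈ s, (w d : ℂ) * e (θ * X d)‖ ^ 2 : ℝ) : ℂ) =
      ∑ d ∈ s, ∑ d' ∈ s, (w d * w d' : ℂ) * e (θ * (X d - X d')) := by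
    intro θ
    rw [Complex.ofReal_pow, ← Complex.mul_conj', map_sum, Finset.sum_mul_sum]
    refine Finset.sum_congr rfl fun d _ => Finset.sum_congr rfl fun d' _ => ?_
    rw [e_mul_sub, map_mul, Complex.conj_ofReal]
    ring
  have h1 : ((∑ r ∈ range R, ∑ r' ∈ range R, ‖∑ d ∈ s, (w d : ℂ) * e ((t r - t r') * X d)‖ ^ 2 : ℝ)
      : ℂ) = ((∑ d ∈ s, ∑ d' ∈ s, w d * w d' * ‖∑ r ∈ range R, e (t r * (X d - X d'))‖ ^ 2 : ℝ) : ℂ) := by
    rw [Complex.ofReal_sum]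
    have h2 : ∀ r ∈ range R, ((∑ r' ∈ range R, ‖∑ d ∈ s, (w d : ℂ) * e ((t r - t r') * X d)‖ ^ 2 : ℝ)
        : ℂ) = ∑ d ∈ s, ∑ d' ∈ s, ∑ r' ∈ range R, (w d * w d' : ℂ) *
          (e (t r * (X d - X d')) * (starRingEnd ℂ) (e (t r' * (X d - X d')))) := by
      intro r _
      rw [Complex.ofReal_sum]
      simp_rw [key]
      rw [Finset.sum_comm]
      refine Finset.sum_congr rfl fun d _ => ?_
      rw [Finset.sum_comm]
      refine Finset.sum_congr rfl fun d' _ => Finset.sum_congr rfl fun r' _ => ?_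
      rw [e_sub_mul]
    rw [Finset.sum_congr rfl h2, Finset.sum_comm, Complex.ofReal_sum]
    refine Finset.sum_congr rfl fun d _ => ?_
    rw [Finset.sum_comm, Complex.ofReal_sum]
    refine Finset.sum_congr rfl fun d' _ => ?_
    simp_rw [← Finset.mul_sum]
    rw [← Finset.sum_mul, ← map_sum, Complex.mul_conj']
    push_cast
    ring
  exact_mod_cast h1

theorem first_moment' {ι : Type*} (s : Finset ι) (w : ι → ℝ) (hw : ∀ d ∈ s, 0 ≤ w d) (X : ι → ℝ)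
    (R : ℕ) (t : ℕ → ℝ) {κ : ℝ} (h : ∀ d ∈ s, ∀ d' ∈ s, d ≠ d' →
      ‖∑ r ∈ range R, e (t r * (X d - X d'))‖ ≤ R * κ) {η : ℝ} (hη0 : 0 ≤ η)
    (hη : ∑ d ∈ s, w d ^ 2 + κ ^ 2 * (∑ d ∈ s, w d) ^ 2 ≤ η ^ 2) :
    ∑ r ∈ range R, ∑ r' ∈ range R, ‖∑ d ∈ s, (w d : ℂ) * e ((t r - t r') * X d)‖ ≤
      (R : ℝ) ^ 2 * η := by
  classical
  have hb : ∀ d ∈ s, ∀ d' ∈ s, w d * w d' * ‖∑ r ∈ range R, e (t r * (X d - X d'))‖ ^ 2 ≤
      (R : ℝ) ^ 2 * ((if d = d' then w d ^ 2 else 0) + κ ^ 2 * (w d * w d')) := by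
    intro d hd d' hd'
    have hw1 := hw d hd
    have hw2 := hw d' hd'
    by_cases hdd : d = d'
    · subst hdd
      rw [if_pos rfl]
      have e1 : ‖∑ r ∈ range R, e (t r * (X d - X d))‖ = R := by simp [e_zero]
      rw [e1]
      have : 0 ≤ (R : ℝ) ^ 2 * (κ ^ 2 * (w d * w d)) := by positivity
      nlinarith
    · rw [if_neg hdd, zero_add]
      have e1 := h d hd d' hd' hdd
      calc w d * w d' * ‖∑ r ∈ range R, e (t r * (X d - X d'))‖ ^ 2
          ≤ w d * w d' * (R * κ) ^ 2 := by gcongr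
        _ = _ := by ring
  have h1 : ∑ r ∈ range R, ∑ r' ∈ range R, ‖∑ d ∈ s, (w d : ℂ) * e ((t r - t r') * X d)‖ ^ 2 ≤
      (R : ℝ) ^ 2 * η ^ 2 := by
    rw [second_moment_eq]
    calc _ ≤ ∑ d ∈ s, ∑ d' ∈ s,
          (R : ℝ) ^ 2 * ((if d = d' then w d ^ 2 else 0) + κ ^ 2 * (w d * w d')) :=
          Finset.sum_le_sum fun d hd => Finset.sum_le_sum fun d' hd' => hb d hd d' hd'
      _ = (R : ℝ) ^ 2 * (∑ d ∈ s, w d ^ 2 + κ ^ 2 * (∑ d ∈ s, w d) ^ 2) := by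
          simp_rw [← Finset.mul_sum]
          congr 1
          simp_rw [Finset.sum_add_distrib, ← Finset.mul_sum]
          congr 1
          · refine Finset.sum_congr rfl fun d hd => ?_
            rw [Finset.sum_ite_eq, if_pos hd]
          · rw [← Finset.sum_mul]; ring
      _ ≤ (R : ℝ) ^ 2 * η ^ 2 := by gcongr
  rw [← Finset.sum_product'] at h1 ⊢
  have h2 := sq_sum_le_card_mul_sum_sq (s := range R ×ˢ range R)
    (f := fun x : ℕ × ℕ => ‖∑ d ∈ s, (w d : ℂ) * e ((t x.1 - t x.2) * X d)‖)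
  have h3 : ((range R ×ˢ range R).card : ℝ) = (R : ℝ) ^ 2 := by
    rw [Finset.card_product, card_range]; push_cast; ring
  rw [h3] at h2
  refine abs_le_of_sq_le_sq' ?_ (by positivity) |>.2
  calc _ ≤ _ := h2
    _ ≤ (R : ℝ) ^ 2 * ((R : ℝ) ^ 2 * η ^ 2) := by gcongr
    _ = ((R : ℝ) ^ 2 * η) ^ 2 := by ring

/-- The sum over the pairs of times. -/
theorem sum_norm_le' {a : ℕ} (ha : 2 ≤ a) {ε : ℕ → Ω → ℤ}
    (hε : ∀ n, Measurable (ε n)) {M : ℤ} (hM : ∀ n ω, |ε n ω| ≤ M) {δ : ℕ → ℝ} (h : Cond μ ε δ)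
    (y : ℝ) (A : Finset ℕ) {η κ : ℝ} (hη : 0 ≤ η) (hA : ∏ i ∈ A, (1 - δ i) + κ ^ 2 ≤ η ^ 2) (R : ℕ)
    (t : ℕ → ℝ) (hvan : ∀ d ∈ vecs M A, ∀ d' ∈ vecs M A, d ≠ d' →
      ‖∑ r ∈ range R, e (t r * (val a A d - val a A d'))‖ ≤ R * κ) :
    ∑ r ∈ range R, ∑ r' ∈ range R, ‖∫ ω, e ((t r - t r') * X a ε y ω) ∂μ‖ ≤ (R : ℝ) ^ 2 * η := by
  have hlim : Tendsto (fun L => ∑ r ∈ range R, ∑ r' ∈ range R,
      ‖∫ ω, e ((t r - t r') * XL a ε y L ω) ∂μ‖) atTop
      (𝓝 (∑ r ∈ range R, ∑ r' ∈ range R, ‖∫ ω, e ((t r - t r') * X a ε y ω) ∂μ‖)) := by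
    refine tendsto_finsetSum _ fun r _ => tendsto_finsetSum _ fun r' _ => Tendsto.norm ?_
    refine tendsto_integral_of_dominated_convergence (fun _ => (1 : ℝ)) ?_ (integrable_const _) ?_ ?_
    · intro L
      exact (measurable_e.comp ((measurable_XL hε y L).const_mul _)).aestronglyMeasurable
    · intro L
      exact Filter.Eventually.of_forall fun ω => (norm_e _).le
    · refine Filter.Eventually.of_forall fun ω => ?_
      exact (continuous_e.tendsto _).comp ((tendsto_XL ha hM y ω).const_mul _)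
  refine le_of_tendsto hlim ?_
  obtain ⟨L₀, hL₀⟩ : ∃ L₀, A ⊆ range L₀ := by
    refine ⟨A.sup id + 1, fun i hi => ?_⟩
    rw [Finset.mem_range]
    have := Finset.le_sup (f := id) hi
    simp only [id] at this
    omega
  filter_upwards [eventually_ge_atTop L₀] with L hL
  have hsub : A ⊆ range L := hL₀.trans (Finset.range_subset_range.2 hL)
  set O : Finset ℕ := range L \ A with hO
  have hOA : Disjoint A O := Finset.disjoint_sdiff
  calc ∑ r ∈ range R, ∑ r' ∈ range R, ‖∫ ω, e ((t r - t r') * XL a ε y L ω) ∂μ‖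
      ≤ ∑ r ∈ range R, ∑ r' ∈ range R, ∑ u ∈ vecs M O,
        ‖∑ d ∈ vecs M A, (μ.real (vset ε O u ∩ vset ε A d) : ℂ) *
          e ((t r - t r') * val a A d)‖ :=
        Finset.sum_le_sum fun r _ => Finset.sum_le_sum fun r' _ =>
          norm_integral_XL_le hε hM y _ A hsub
    _ = ∑ u ∈ vecs M O, ∑ r ∈ range R, ∑ r' ∈ range R,
        ‖∑ d ∈ vecs M A, (μ.real (vset ε O u ∩ vset ε A d) : ℂ) *
          e ((t r - t r') * val a A d)‖ := by
        rw [Finset.sum_comm (s := vecs M O)]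
        refine Finset.sum_congr rfl fun r _ => ?_
        rw [Finset.sum_comm]
    _ ≤ ∑ u ∈ vecs M O, (R : ℝ) ^ 2 * (η * μ.real (vset ε O u)) := by
        refine Finset.sum_le_sum fun u _ => ?_
        refine first_moment' (vecs M A) (fun d => μ.real (vset ε O u ∩ vset ε A d))
          (fun d _ => measureReal_nonneg) (val a A) R t hvan (by positivity) ?_
        have hs : ∑ d ∈ vecs M A, μ.real (vset ε O u ∩ vset ε A d) = μ.real (vset ε O u) :=
          (real_split hε hM _ A).symm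
        calc ∑ d ∈ vecs M A, μ.real (vset ε O u ∩ vset ε A d) ^ 2 +
              κ ^ 2 * (∑ d ∈ vecs M A, μ.real (vset ε O u ∩ vset ε A d)) ^ 2
            ≤ ∑ d ∈ vecs M A, ((∏ i ∈ A, (1 - δ i)) * μ.real (vset ε O u)) *
              μ.real (vset ε O u ∩ vset ε A d) + κ ^ 2 * μ.real (vset ε O u) ^ 2 := by
              rw [hs]
              refine add_le_add (Finset.sum_le_sum fun d _ => ?_) le_rfl
              rw [pow_two]
              exact mul_le_mul_of_nonneg_right (vset_real_le h hOA u d) measureReal_nonneg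
          _ = (∏ i ∈ A, (1 - δ i) + κ ^ 2) * μ.real (vset ε O u) ^ 2 := by
              rw [← Finset.mul_sum, hs]; ring
          _ ≤ η ^ 2 * μ.real (vset ε O u) ^ 2 := by gcongr
          _ = (η * μ.real (vset ε O u)) ^ 2 := by ring
    _ = (R : ℝ) ^ 2 * η * ∑ u ∈ vecs M O, μ.real (Set.univ ∩ vset ε O u) := by
        rw [Finset.mul_sum]
        refine Finset.sum_congr rfl fun u _ => ?_
        rw [Set.univ_inter]; ring
    _ = (R : ℝ) ^ 2 * η := by rw [← real_split hε hM, probReal_univ, mul_one]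

/-- Small exponential sums of the sequence `Q` over suitable times, at the fractions with a
denominator `a ^ n` and a numerator not divisible by `p ^ l`. -/
def PSum (Q : ℕ → ℤ) (p a : ℕ) : Prop :=
  ∀ (l : ℕ) (κ : ℝ), 0 < κ → ∃ n₀ : ℕ, ∀ N : ℕ, ∃ R : ℕ, 0 < R ∧ ∃ s : ℕ → ℕ,
    ∀ n, n₀ ≤ n → n ≤ N → ∀ c : ℤ, ¬ (p : ℤ) ^ l ∣ c →
      ‖∑ r ∈ range R, e ((Q (s r) : ℝ) * ((c : ℝ) / (a : ℝ) ^ n))‖ ≤ R * κ

/-- The second moments along suitable times are small. -/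
theorem moment_seq {a : ℕ} (ha : 2 ≤ a) {ε : ℕ → Ω → ℤ} (hε : ∀ n, Measurable (ε n))
    {M : ℤ} (hM0 : 0 ≤ M) (hM : ∀ n ω, |ε n ω| ≤ M) {y : ℝ}
    {δ : ℕ → ℝ} (hc : Cond μ ε δ) (hδ0 : ∀ n, 0 ≤ δ n) (hns : ¬ Summable δ) {Q : ℕ → ℤ} {p : ℕ}
    (hp : p.Prime) (hpa : p ∣ a) (hQ : PSum Q p a) (H : ℕ) {η : ℝ} (hη : 0 < η) :
    ∃ R : ℕ, 0 < R ∧ ∃ s : ℕ → ℕ, ∀ h : ℤ, h ≠ 0 → |h| ≤ H →
      ∫ ω, ‖∑ r ∈ range R, e ((h * (Q (s r) : ℝ)) * X a ε y ω)‖ ^ 2 ∂μ ≤ (R : ℝ) ^ 2 * η := by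
  classical
  set l : ℕ := H * (2 * M).toNat + 1 with hl
  have hlp : (H : ℤ) * (2 * M) < (p : ℤ) ^ l := by
    have h1 : l < p ^ l := Nat.lt_pow_self hp.one_lt
    have h2 : ((2 * M).toNat : ℤ) = 2 * M := Int.toNat_of_nonneg (by linarith)
    have h3 : (l : ℤ) = H * (2 * M) + 1 := by rw [hl]; push_cast [h2]; ring
    have h4 : (l : ℤ) < (p : ℤ) ^ l := by exact_mod_cast h1
    linarith
  obtain ⟨n₀, hn₀⟩ := hQ l (η / 2) (by positivity)
  obtain ⟨A, hgap, hmin, hprod⟩ := exists_positions' hδ0 (cond_nonneg hc) hns (l := l) (by omega)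
    n₀ (η := η ^ 2 / 2) (by positivity)
  set N : ℕ := A.sup id + 1 with hN
  have hNA : ∀ n ∈ A, n + 1 ≤ N := by
    intro n hn
    have := Finset.le_sup (f := id) hn
    simp only [id] at this
    omega
  obtain ⟨R, hR, s, hs⟩ := hn₀ N
  refine ⟨R, hR, s, fun h hh hhH => ?_⟩
  have hl2 : |h| * (2 * M) < (p : ℤ) ^ l :=
    lt_of_le_of_lt (mul_le_mul_of_nonneg_right hhH (by linarith)) hlp
  refine (integral_sq_le (measurable_X ha hε hM y) R (fun r => h * (Q (s r) : ℝ))).trans ?_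
  have hvan : ∀ d ∈ vecs M A, ∀ d' ∈ vecs M A, d ≠ d' →
      ‖∑ r ∈ range R, e ((h * (Q (s r) : ℝ)) * (val a A d - val a A d'))‖ ≤ R * (η / 2) := by
    intro d hd d' hd' hne
    set δ : ℕ → ℤ := fun i => if hi : i ∈ A then d ⟨i, hi⟩ - d' ⟨i, hi⟩ else 0 with hδ
    have hδA : ∀ i : A, δ i = d i - d' i := by
      intro i
      rw [hδ]
      simp only
      rw [dif_pos i.2]
    have hval : val a A d - val a A d' = ∑ i ∈ A, (δ i : ℝ) / (a : ℝ) ^ (i + 1) := by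
      unfold Pool.Agent.N440.FO.val
      rw [← Finset.sum_sub_distrib, ← Finset.sum_coe_sort A]
      refine Finset.sum_congr rfl fun i _ => ?_
      rw [hδA i]
      push_cast
      ring
    have hbd : ∀ i ∈ A, |δ i| ≤ 2 * M := by
      intro i hi
      have e1 := hδA ⟨i, hi⟩
      simp only at e1
      rw [e1]
      have h6 := Finset.mem_Icc.1 (Fintype.mem_piFinset.1 hd ⟨i, hi⟩)
      have h7 := Finset.mem_Icc.1 (Fintype.mem_piFinset.1 hd' ⟨i, hi⟩)
      rw [abs_le]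
      constructor <;> linarith [h6.1, h6.2, h7.1, h7.2]
    have hex : ∃ i ∈ A, δ i ≠ 0 := by
      by_contra hcon
      push Not at hcon
      apply hne
      funext i
      have e1 := hδA i
      rw [hcon i i.2] at e1
      linarith
    obtain ⟨n, hn, c, hc', hce⟩ := comb hpa (by omega) hgap hbd hex hh hl2
    have hva := hs (n + 1) ((hmin n hn).trans (Nat.le_succ n)) (hNA n hn) c hc'
    refine le_trans (le_of_eq ?_) hva
    congr 1
    refine Finset.sum_congr rfl fun r _ => ?_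
    congr 1
    rw [hval, ← hce]
    ring
  exact sum_norm_le' ha hε hM hc y A hη.le (κ := η / 2) (by nlinarith [hprod, sq_nonneg η]) R
    (fun r => h * (Q (s r) : ℝ)) hvan

/-- An open set is visited almost surely. -/
theorem visit_seq {a : ℕ} (ha : 2 ≤ a) {ε : ℕ → Ω → ℤ} (hε : ∀ n, Measurable (ε n))
    {M : ℤ} (hM : ∀ n ω, |ε n ω| ≤ M) {y : ℝ} {q : ℕ → ℝ}
    (hmom : ∀ (H : ℕ) (η : ℝ), 0 < η → ∃ R : ℕ, 0 < R ∧ ∃ s : ℕ → ℕ, ∀ h : ℤ, h ≠ 0 → |h| ≤ H →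
      ∫ ω, ‖∑ r ∈ range R, e ((h * q (s r)) * X a ε y ω)‖ ^ 2 ∂μ ≤ (R : ℝ) ^ 2 * η)
    {U : Set Circ} (hU : IsOpen U) (hne : U.Nonempty) :
    ∀ᵐ ω ∂μ, ∃ n : ℕ, (((q n * X a ε y ω : ℝ)) : Circ) ∈ U := by
  classical
  obtain ⟨H, ρ, hρ, hd⟩ := dens hU hne
  rw [ae_iff]
  set Bad : Set Ω := {ω | ¬ ∃ n : ℕ, (((q n * X a ε y ω : ℝ)) : Circ) ∈ U} with hBad
  have key : ∀ η : ℝ, 0 < η → μ.real Bad ≤ (2 * H + 1) * (η / ρ ^ 2) := by
    intro η hη
    obtain ⟨R, hR, s, hs⟩ := hmom H η hη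
    have hR' : (0 : ℝ) < R := by exact_mod_cast hR
    set W : ℤ → Ω → ℝ := fun h ω =>
      ‖∑ r ∈ range R, e ((h * q (s r)) * X a ε y ω)‖ ^ 2 with hW
    set F : Finset ℤ := (Finset.Icc (-(H : ℤ)) H).filter (fun h => h ≠ 0) with hF
    have hsub : Bad ⊆ ⋃ h ∈ F, {ω | (R * ρ) ^ 2 ≤ W h ω} := by
      intro ω hω
      by_contra hcon
      apply hω
      have hsmall : Small H ρ R (fun r => q (s r) * X a ε y ω) := by
        intro h hh hhH
        by_contra hlt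
        rw [not_le] at hlt
        apply hcon
        rw [Set.mem_iUnion₂]
        refine ⟨h, ?_, ?_⟩
        · rw [hF, Finset.mem_filter, Finset.mem_Icc]
          exact ⟨abs_le.1 hhH, hh⟩
        · show (R * ρ) ^ 2 ≤ ‖∑ r ∈ range R, e ((h * q (s r)) * X a ε y ω)‖ ^ 2
          have e1 : ∑ r ∈ range R, e ((h * q (s r)) * X a ε y ω) =
              ∑ r ∈ range R, e (h * (q (s r) * X a ε y ω)) := by
            simp_rw [mul_assoc]
          rw [e1]
          gcongr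
      obtain ⟨r, _, hr⟩ := hd R _ hR hsmall
      exact ⟨s r, hr⟩
    have hWint : ∀ h, Integrable (W h) μ := by
      intro h
      refine Integrable.of_bound (C := (R : ℝ) ^ 2) ?_ ?_
      · refine Measurable.aestronglyMeasurable ?_
        refine Measurable.pow_const ?_ 2
        refine Measurable.norm ?_
        refine Finset.measurable_sum _ fun r _ => ?_
        exact measurable_e.comp ((measurable_X ha hε hM y).const_mul _)
      · refine Filter.Eventually.of_forall fun ω => ?_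
        rw [Real.norm_of_nonneg (by positivity)]
        show ‖∑ r ∈ range R, e ((h * q (s r)) * X a ε y ω)‖ ^ 2 ≤ _
        gcongr
        calc _ ≤ ∑ r ∈ range R, ‖e ((h * q (s r)) * X a ε y ω)‖ := norm_sum_le _ _
          _ = R := by simp [norm_e]
    have hmk : ∀ h ∈ F, μ.real {ω | (R * ρ) ^ 2 ≤ W h ω} ≤ η / ρ ^ 2 := by
      intro h hh
      rw [hF, Finset.mem_filter, Finset.mem_Icc] at hh
      have h1 := mul_meas_ge_le_integral_of_nonneg (μ := μ) (f := W h)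
        (Filter.Eventually.of_forall fun ω => by positivity) (hWint h) ((R * ρ) ^ 2)
      have h2 := hs h hh.2 (abs_le.2 hh.1)
      have h3 : (R * ρ) ^ 2 * μ.real {ω | (R * ρ) ^ 2 ≤ W h ω} ≤ (R : ℝ) ^ 2 * η := h1.trans h2
      rw [le_div_iff₀ (by positivity)]
      have h4 : (R : ℝ) ^ 2 * (μ.real {ω | (R * ρ) ^ 2 ≤ W h ω} * ρ ^ 2) ≤ (R : ℝ) ^ 2 * η := by
        calc _ = (R * ρ) ^ 2 * μ.real {ω | (R * ρ) ^ 2 ≤ W h ω} := by ring
          _ ≤ _ := h3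
      exact le_of_mul_le_mul_left h4 (by positivity)
    calc μ.real Bad ≤ μ.real (⋃ h ∈ F, {ω | (R * ρ) ^ 2 ≤ W h ω}) := measureReal_mono hsub (measure_ne_top _ _)
      _ ≤ ∑ h ∈ F, μ.real {ω | (R * ρ) ^ 2 ≤ W h ω} := measureReal_biUnion_finset_le _ _
      _ ≤ ∑ _h ∈ F, η / ρ ^ 2 := Finset.sum_le_sum hmk
      _ = F.card * (η / ρ ^ 2) := by simp
      _ ≤ (2 * H + 1) * (η / ρ ^ 2) := by
          gcongr
          have h1 : F.card ≤ (Finset.Icc (-(H : ℤ)) H).card := Finset.card_filter_le _ _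
          have h2 : (Finset.Icc (-(H : ℤ)) H).card = 2 * H + 1 := by
            rw [Int.card_Icc]; omega
          rw [h2] at h1
          exact_mod_cast h1
  have hz : μ.real Bad ≤ 0 := by
    refine le_of_forall_pos_le_add fun τ hτ => ?_
    rw [zero_add]
    have h1 := key (τ * ρ ^ 2 / (2 * H + 1)) (by positivity)
    refine h1.trans (le_of_eq ?_)
    have : (2 * (H : ℝ) + 1) ≠ 0 := by positivity
    field_simp
  have hz' : μ.real Bad = 0 := le_antisymm hz measureReal_nonneg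
  rwa [measureReal_eq_zero_iff] at hz'

/-- For almost all random numbers `x` the multiples `Q n x` are dense modulo one. -/
theorem dense_seq {a : ℕ} (ha : 2 ≤ a) {ε : ℕ → Ω → ℤ} (hε : ∀ n, Measurable (ε n))
    {M : ℤ} (hM : ∀ n ω, |ε n ω| ≤ M) {y : ℝ}
    {δ : ℕ → ℝ} (hc : Cond μ ε δ) (hδ0 : ∀ n, 0 ≤ δ n) (hns : ¬ Summable δ) {Q : ℕ → ℤ} {p : ℕ}
    (hp : p.Prime) (hpa : p ∣ a) (hQ : PSum Q p a) :
    ∀ᵐ ω ∂μ, Dense (Set.range fun n : ℕ => (((Q n : ℝ) * X a ε y ω : ℝ) : Circ)) := by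
  have hM0 : 0 ≤ M := by
    have : Nonempty Ω := (IsProbabilityMeasure.ne_zero μ |> fun h => by
      by_contra hcon
      rw [not_nonempty_iff] at hcon
      exact h (Measure.eq_zero_of_isEmpty μ))
    exact (abs_nonneg _).trans (hM 0 (Classical.arbitrary Ω))
  obtain ⟨B, hBc, hBe, hB⟩ := TopologicalSpace.exists_countable_basis Circ
  have h1 : ∀ᵐ ω ∂μ, ∀ U ∈ B, ∃ n : ℕ, (((Q n : ℝ) * X a ε y ω : ℝ) : Circ) ∈ U := by
    rw [ae_ball_iff hBc]
    intro U hU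
    exact visit_seq ha hε hM (y := y) (q := fun n => (Q n : ℝ))
      (fun H η hη => moment_seq ha hε hM0 hM hc hδ0 hns hp hpa hQ H hη) (hB.isOpen hU)
      (Set.nonempty_iff_ne_empty.2 fun h0 => hBe (h0 ▸ hU))
  filter_upwards [h1] with ω hω
  rw [hB.dense_iff]
  intro U hU _
  obtain ⟨n, hn⟩ := hω U hU
  exact ⟨_, hn, n, rfl⟩

end Run7.h88.LQ
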